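import Pool.Agent.Lib.MP_f80667_ag.Mx.Def
import Pool.Agent.Lib.MP_f80667_ag.Cv.Mo

/-! The base point of the Kummer variety. -/

open ZC BE PE Polynomial CV KM

namespace MX

variable {F : Type} [Field F]

private theorem bk_qf (W : WeierstrassCurve F) (L : Type) [Field L] [Algebra F L] :
    qf W.Ψ₂Sq ((1 : L), (0 : L)) = 0 := by
  unfold qf
  refine Finset.sum_eq_zero fun i hi => ?_
  have h4 := Finset.mem_range.1 hi
  by_cases h : i = 4
  · subst h
    rw [coeff_eq_zero_of_natDegree_lt (lt_of_le_of_lt W.natDegree_Ψ₂Sq_le (by norm_num)), map_zero,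
      zero_mul, zero_mul]
  · have h5 : 4 - i ≠ 0 := by omega
    rw [zero_pow h5, mul_zero]

private theorem bk_single {n : ℕ} [NeZero n] {L M : Type} [Field L] [Field M] (φ : L →+* M)
    (i : Fin n) : φ ((Pi.single 0 1 : Fin n → L) i) = (Pi.single 0 1 : Fin n → M) i := by
  by_cases h : i = 0
  · subst h
    rw [Pi.single_eq_same, Pi.single_eq_same, map_one]
  · rw [Pi.single_eq_of_ne h, Pi.single_eq_of_ne h, map_zero]

/-- The base point: `x i = (1 : 0)` for all `i`, `t = (1 : 0 : .. : 0)`. -/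
noncomputable def kx₀ {n : ℕ} [NeZero n] (W : Fin n → WeierstrassCurve F) (L : Type) [Field L]
    [Algebra F L] : Kx (fun i => (W i).Ψ₂Sq) L where
  x _ := (1, 0)
  t := Pi.single 0 1
  hx _ := fun h => one_ne_zero (congrArg Prod.fst h)
  ht := fun h0 => one_ne_zero (α := L) (by simpa using congrFun h0 0)
  eq i j := by
    rw [bk_qf, bk_qf, zero_mul, zero_mul]

/-- Proof: the coordinates are `0` and `1`. -/
noncomputable def bpK {n : ℕ} [NeZero n] (W : Fin n → WeierstrassCurve F) :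
    Bp (Kum fun i => (W i).Ψ₂Sq) where
  o L _ _ := Quotient.mk _ (kx₀ W L)
  nat L M _ _ _ _ σ := by
    refine Quotient.sound (Kx.rel_symm ⟨fun _ => 1, 1, fun _ => one_ne_zero, one_ne_zero,
      fun i => ?_, fun i => ?_⟩)
    · change (σ (1 : L), σ (0 : L)) = ((1 : M) * (1 : M), (1 : M) * (0 : M))
      rw [map_one, map_zero, mul_one, mul_zero]
    · change σ ((Pi.single 0 1 : Fin n → L) i) =
        (1 : M) * (1 : M) ^ 2 * (Pi.single 0 1 : Fin n → M) i
      rw [one_pow, one_mul, one_mul]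
      exact bk_single (σ : L →+* M) i
  red K L Ω _ _ _ _ _ _ _ w := by
    refine ⟨kx₀ W L, kx₀ W Ω, rfl, rfl, fun i => ⟨w.V.one_mem, w.V.zero_mem, ?_, ?_⟩, fun i => ?_⟩
    · exact map_one w.res
    · exact map_zero w.res
    · by_cases h : i = 0
      · subst h
        have e : (kx₀ W L).t 0 = 1 := Pi.single_eq_same (M := fun _ => L) (0 : Fin n) (1 : L)
        have e' : (kx₀ W Ω).t 0 = 1 := Pi.single_eq_same (M := fun _ => Ω) (0 : Fin n) (1 : Ω)
        refine ⟨by rw [e]; exact w.V.one_mem, ?_⟩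
        rw [e']
        have e2 : (⟨(kx₀ W L).t 0, by rw [e]; exact w.V.one_mem⟩ : w.V) = 1 := Subtype.ext e
        rw [e2, map_one]
      · have e : (kx₀ W L).t i = 0 := Pi.single_eq_of_ne h _
        have e' : (kx₀ W Ω).t i = 0 := Pi.single_eq_of_ne h _
        refine ⟨by rw [e]; exact w.V.zero_mem, ?_⟩
        rw [e']
        have e2 : (⟨(kx₀ W L).t i, by rw [e]; exact w.V.zero_mem⟩ : w.V) = 0 := Subtype.ext e
        rw [e2, map_zero]

end MX
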