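import Pool.Agent.Lib.MP_f80667_ag.Mx.Def
import Pool.Agent.Lib.MP_f80667_ag.Sp.Def
import Pool.Agent.Lib.MP_f80667_ag.Km.Sw

/-! The cases without Kummer varieties and with one Kummer variety. -/

open ZC BE PE CV KM NE IsDedekindDomain NumberField

namespace MX

variable {F : Type} [Field F] [NumberField F]

/-- The push-forward of the image of `Δ`. -/
private theorem imDeS_mo {X X' : Vr F} (φ : Mo X X') {P : Set ℕ} {z : LHat (FA X)}
    {z' : LHat (FA X')}
    (h : ∀ (m : ℕ+) (c : Fam X), z.Rep m c.cl → z'.Rep m (Fam.cl (V := X') (φ.ad c)))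
    (hz : ImDeS P z) : ImDeS P z' := by
  obtain ⟨x, hx⟩ := hz
  refine ⟨LHat.map (φ.gp F) x, fun m hm => ?_⟩
  obtain ⟨c, c', hbc, hc, hc'⟩ := hx m hm
  exact ⟨φ.dz F c, φ.ad c', φ.isBcF hbc, hc.map (φ.gp F), h m c' hc'⟩

/-- Families: the composite of two morphisms which is the identity on points. -/
private theorem ad_ad {X X' Y : Vr F} (φ : Mo X X') (ψ : Mo X' Y) (χ : Mo X Y)
    (h : ∀ (L : Type) [Field L] [Algebra F L] (x : X.pt L), ψ.f L (φ.f L x) = χ.f L x)
    (c : AdF X) : ψ.ad (φ.ad c) = χ.ad c := by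
  have h0 : ∀ (K : Type) [Field K] [Algebra F K] (z : Dz X K), ψ.dz K (φ.dz K z) = χ.dz K z := by
    intro K _ _ z
    rw [← Mo.dz_comp]
    exact Mo.dz_congr (fun x => h _ x) z
  exact Prod.ext (funext fun v => h0 _ (c.1 v)) (funext fun v => h0 _ (c.2 v))

/-- Families: inverse morphisms. -/
private theorem ad_inv {X X' : Vr F} (φ : Mo X X') (ψ : Mo X' X)
    (h : ∀ (L : Type) [Field L] [Algebra F L] (x : X.pt L), ψ.f L (φ.f L x) = x)
    (c : AdF X) : ψ.ad (φ.ad c) = c := by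
  have h0 : ∀ (K : Type) [Field K] [Algebra F K] (z : Dz X K), ψ.dz K (φ.dz K z) = z := by
    intro K _ _ z
    rw [← Mo.dz_comp]
    exact Mo.dz_id (fun x => h _ x) z
  exact Prod.ext (funext fun v => h0 _ (c.1 v)) (funext fun v => h0 _ (c.2 v))

/-- Inverse morphisms give bijections on the classes of families. -/
private theorem fa_bij {X X' : Vr F} (φ : Mo X X') (ψ : Mo X' X)
    (h1 : ∀ (L : Type) [Field L] [Algebra F L] (x : X'.pt L), φ.f L (ψ.f L x) = x)
    (h2 : ∀ (L : Type) [Field L] [Algebra F L] (x : X.pt L), ψ.f L (φ.f L x) = x) :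
    Function.Bijective (ψ.fa : FA X' → FA X) := by
  refine Function.bijective_iff_has_inverse.2 ⟨φ.fa, fun x => ?_, fun x => ?_⟩
  · obtain ⟨c, rfl⟩ := clA_surj x
    exact congrArg (clH X') (ad_inv ψ φ h1 c)
  · obtain ⟨c, rfl⟩ := clA_surj x
    exact congrArg (clH X) (ad_inv φ ψ h2 c)

/-- Isomorphic varieties with families of morphisms `p i`, `p' i` to varieties `Y i`. Proof: as `qp_iso` (`Km/Sw.lean`): `φ.ad`, `ψ.ad` on families (`fa_cl`, `Mo.ratEq`, `Mo.nrm`), `LHat.map` on the completions, and `ImDeS` is preserved (the base change commutes with `φ`). -/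
theorem q_iso {ι : Type} {X X' : Vr F} {Y : ι → Vr F} (p : ∀ i, Mo X (Y i))
    (p' : ∀ i, Mo X' (Y i)) (φ : Mo X X') (ψ : Mo X' X)
    (h1 : ∀ (L : Type) [Field L] [Algebra F L] (x : X'.pt L), φ.f L (ψ.f L x) = x)
    (h2 : ∀ (L : Type) [Field L] [Algebra F L] (x : X.pt L), ψ.f L (φ.f L x) = x)
    (hp : ∀ (i : ι) (L : Type) [Field L] [Algebra F L] (x : X'.pt L),
      (p i).f L (ψ.f L x) = (p' i).f L x) {P : Set ℕ}
    (h : (∀ m : ℕ, m ≠ 0 → Sf P m → ∀ c : Fam X, (∀ i, Fam.cl (V := Y i) ((p i).ad c) = 0) →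
        ∃ c' : Fam X, (∀ i, Fam.cl (V := Y i) ((p i).ad c') = 0) ∧ c.cl = m • c'.cl) ∧
      ∀ (z : LHat (FA X)) (z' : ∀ i, LHat (FA (Y i))),
        (∀ i (m : ℕ+) (c : Fam X), z.Rep m c.cl → (z' i).Rep m (Fam.cl (V := Y i) ((p i).ad c))) →
        (ImDeS P z ↔ ∀ i, ImDeS P (z' i))) :
    (∀ m : ℕ, m ≠ 0 → Sf P m → ∀ c : Fam X', (∀ i, Fam.cl (V := Y i) ((p' i).ad c) = 0) →
        ∃ c' : Fam X', (∀ i, Fam.cl (V := Y i) ((p' i).ad c') = 0) ∧ c.cl = m • c'.cl) ∧
      ∀ (z : LHat (FA X')) (z' : ∀ i, LHat (FA (Y i))),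
        (∀ i (m : ℕ+) (c : Fam X'), z.Rep m c.cl →
          (z' i).Rep m (Fam.cl (V := Y i) ((p' i).ad c))) →
        (ImDeS P z ↔ ∀ i, ImDeS P (z' i)) := by
  have hq : ∀ i (c : AdF X'), (p i).ad (ψ.ad c) = (p' i).ad c := fun i c =>
    ad_ad ψ (p i) (p' i) (fun L _ _ x => hp i L x) c
  have hq' : ∀ i (c : AdF X), (p' i).ad (φ.ad c) = (p i).ad c := fun i c => by
    rw [← hq, ad_inv φ ψ h2]
  refine ⟨fun m hm hS c hc => ?_, fun z z' hz => ?_⟩
  · obtain ⟨d, hd, e⟩ := h.1 m hm hS (ψ.ad c : AdF X) (fun i => by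
      have h3 := hc i
      rw [← hq] at h3
      exact h3)
    refine ⟨(φ.ad d : AdF X'), fun i => ?_, ?_⟩
    · have h3 := hd i
      rw [← hq'] at h3
      exact h3
    · have e1 : φ.fa (clH X (ψ.ad c)) = m • φ.fa (clH X d) := by
        rw [← map_nsmul]
        exact congrArg φ.fa e
      rw [φ.fa_cl, φ.fa_cl, ad_inv ψ φ h1] at e1
      exact e1
  · have hr : ∀ (m : ℕ+) (c : Fam X), (LHat.map ψ.fa z).Rep m c.cl →
        z.Rep m (Fam.cl (V := X') (φ.ad c)) := by
      intro m c hc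
      refine LHat.Rep.of_map ψ.fa (fa_bij φ ψ h1 h2) ?_
      have e1 : ψ.fa (clH X' (φ.ad c)) = clH X c := by
        rw [ψ.fa_cl, ad_inv φ ψ h2]
      have e2 : ψ.fa (Fam.cl (V := X') (φ.ad c)) = c.cl := e1
      rw [e2]
      exact hc
    have hr' : ∀ (m : ℕ+) (c : Fam X'), z.Rep m c.cl →
        (LHat.map ψ.fa z).Rep m (Fam.cl (V := X) (ψ.ad c)) := by
      intro m c hc
      have e2 : ψ.fa c.cl = Fam.cl (V := X) (ψ.ad c) := ψ.fa_cl c
      rw [← e2]
      exact hc.map ψ.fa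
    have h3 := h.2 (LHat.map ψ.fa z) z' (fun i m c hc => by
      have h4 := hz i m (φ.ad c) (hr m c hc)
      rw [hq'] at h4
      exact h4)
    exact ⟨fun h4 => h3.1 (imDeS_mo ψ hr' h4), fun h4 => imDeS_mo φ hr (h3.2 h4)⟩

/-- No Kummer variety. Proof: `q_iso` for the isomorphisms between `En E = Vpi fun i => Ev (E i)` and `Xm E W` (`Fin r ⊕ Fin 0`): `x ↦ Sum.rec x (fun j => j.elim0)`, `x ↦ fun i => x (inl i)`; `pshA i c = (pr i).ad c`. -/
theorem qn_qm {r : ℕ} {n : Fin 0 → ℕ} {E : Fin r → WeierstrassCurve F}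
    {W : ∀ j, Fin (n j) → WeierstrassCurve F} {P : Set ℕ} (h : QnP E P) : QmP E W P := by
  refine q_iso (X := En E) (X' := Xm E W) (Y := fun i => Ev (E i))
    (fun i => pr (V := fun i => Ev (E i)) i) (fun i => pr (V := Vm E W) (Sum.inl i))
    { f := fun L _ _ x p => match p with
        | Sum.inl i => x i
        | Sum.inr j => j.elim0
      nat := fun L M _ _ _ _ σ x => funext fun p => by
        rcases p with i | j
        · rfl
        · exact j.elim0
      red := fun K L Ω _ _ _ _ _ _ _ w x y h p => by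
        rcases p with i | j
        · exact h i
        · exact j.elim0 }
    { f := fun L _ _ x i => x (Sum.inl i)
      nat := fun L M _ _ _ _ σ x => rfl
      red := fun K L Ω _ _ _ _ _ _ _ w x y h i => h (Sum.inl i) }
    (fun L _ _ x => funext fun p => by
        rcases p with i | j
        · rfl
        · exact j.elim0)
    (fun L _ _ x => rfl) (fun i L _ _ x => rfl) ?_
  exact h

/-- One Kummer variety. Proof: `q_iso` with `ι` empty for the isomorphisms between `Kum fun i => (W 0 i).Ψ₂Sq` and `Xm E W` (`Fin 0 ⊕ Fin 1`). -/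
theorem qp_qm {n : Fin 1 → ℕ} {E : Fin 0 → WeierstrassCurve F}
    {W : ∀ j, Fin (n j) → WeierstrassCurve F} {P : Set ℕ}
    (h : QP (Kum fun i => (W 0 i).Ψ₂Sq) P) : QmP E W P := by
  have h2 := q_iso (P := P) (X := Kum fun i => (W 0 i).Ψ₂Sq) (X' := Xm E W) (ι := Fin 0)
    (Y := fun i => Ev (E i))
    (fun i => i.elim0) (fun i => i.elim0)
    { f := fun L _ _ x p => match p with
        | Sum.inl i => i.elim0
        | Sum.inr 0 => x
      nat := fun L M _ _ _ _ σ x => funext fun p => by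
        rcases p with i | j
        · exact i.elim0
        · obtain rfl := Subsingleton.elim 0 j
          rfl
      red := fun K L Ω _ _ _ _ _ _ _ w x y h p => by
        rcases p with i | j
        · exact i.elim0
        · obtain rfl := Subsingleton.elim 0 j
          exact h }
    { f := fun L _ _ x => x (Sum.inr 0)
      nat := fun L M _ _ _ _ σ x => rfl
      red := fun K L Ω _ _ _ _ _ _ _ w x y h => h (Sum.inr 0) }
    (fun L _ _ x => funext fun p => by
        rcases p with i | j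
        · exact i.elim0
        · obtain rfl := Subsingleton.elim 0 j
          rfl)
    (fun L _ _ x => rfl) (fun i => i.elim0)
    ⟨fun m hm hS c _ => by
      obtain ⟨c', hc'⟩ := h.1 m hm hS c
      exact ⟨c', fun i => i.elim0, hc'⟩,
      fun z z' _ => ⟨fun _ i => i.elim0, fun _ => h.2 z⟩⟩
  refine ⟨fun m hm hS c _ => ?_, fun z z' _ => ⟨fun _ i => i.elim0, fun _ => ?_⟩⟩
  · obtain ⟨c', -, hc'⟩ := h2.1 m hm hS c fun i => i.elim0
    exact ⟨c', fun i => i.elim0, hc'⟩
  · exact (h2.2 z z' fun i => i.elim0).2 fun i => i.elim0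

end MX
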