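import Pool.Agent.Lib.MP_f80667_ag.Km.Def
import Pool.Agent.Lib.MP_f80667_ag.Cv.Hat

/-! Products of elliptic curves and Kummer varieties: the definitions for the statement. -/

open ZC BE PE CV KM IsDedekindDomain NumberField

namespace MX

variable {F : Type} [Field F] {r k : ℕ} {n : Fin k → ℕ}

/-- The factors of `X`: the elliptic curves `E i` and the Kummer varieties of the products of the elliptic curves `W j i`. -/
noncomputable def Vm (E : Fin r → WeierstrassCurve F) (W : ∀ j, Fin (n j) → WeierstrassCurve F) :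
    Fin r ⊕ Fin k → Vr F :=
  Sum.elim (fun i => Ev (E i)) fun j => Kum fun i => (W j i).Ψ₂Sq

/-- The product `X` of the factors. -/
noncomputable def Xm (E : Fin r → WeierstrassCurve F) (W : ∀ j, Fin (n j) → WeierstrassCurve F) :
    Vr F :=
  Vpi (Vm E W)

/-- The family of all curves. -/
def All (E : Fin r → WeierstrassCurve F) (W : ∀ j, Fin (n j) → WeierstrassCurve F) :
    Fin r ⊕ (Σ j, Fin (n j)) → WeierstrassCurve F :=
  Sum.elim E fun p => W p.1 p.2

instance (E : Fin r → WeierstrassCurve F) (W : ∀ j, Fin (n j) → WeierstrassCurve F)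
    [hE : ∀ i, (E i).IsElliptic] [hW : ∀ j i, (W j i).IsElliptic] (p : Fin r ⊕ (Σ j, Fin (n j))) :
    (All E W p).IsElliptic :=
  match p with
  | Sum.inl i => hE i
  | Sum.inr p => hW p.1 p.2

/-- The statement for `X` at the prime numbers in `P`: the group of the elements of `F^1_A(X)` whose push-forwards to the `E i` are
`0` is divisible by all `m ≠ 0` with all prime factors in `P`; the components at the prime numbers in `P` of an element `z` of the
completion of `F^1_A(X)` are in the image of `Δ` if and only if this holds for the push-forwards of `z` to the `E i`. -/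
def QmP [NumberField F] (E : Fin r → WeierstrassCurve F)
    (W : ∀ j, Fin (n j) → WeierstrassCurve F) (P : Set ℕ) : Prop :=
  (∀ m : ℕ, m ≠ 0 → Sf P m → ∀ c : Fam (Xm E W),
    (∀ i : Fin r, (pshA (V := Vm E W) (Sum.inl i) c).cl = 0) →
    ∃ c' : Fam (Xm E W), (∀ i : Fin r, (pshA (V := Vm E W) (Sum.inl i) c').cl = 0) ∧
      c.cl = m • c'.cl) ∧
    ∀ (z : LHat (FA (Xm E W))) (z' : ∀ i : Fin r, LHat (FA (Ev (E i)))),
      (∀ i, IsPs (V := Vm E W) (Sum.inl i) z (z' i)) → (ImDeS P z ↔ ∀ i, ImDeS P (z' i))

end MX
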