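import Pool.Agent.Lib.MP_f80667_ag.Mx.Def
import Pool.Agent.Lib.MP_f80667_ag.Kf.Dsf

/-! Products of elliptic curves and Kummer varieties over `ℚ`, by height: the definition for the statement. -/

open ZC BE PE IsDedekindDomain NumberField

namespace MX

/-- The number of the families `(E, W)` of nonsingular equations in `Eqs N` for which `QmP` for `P` holds. -/
noncomputable def Nx (r k : ℕ) (n : Fin k → ℕ) (N : ℕ) (P : Set ℕ) : ℕ :=
  {V : (Fin r → WeierstrassCurve ℤ) × (∀ j, Fin (n j) → WeierstrassCurve ℤ) |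
    (∀ i, V.1 i ∈ Eqs N ∧ (V.1 i).Δ ≠ 0) ∧ (∀ j i, V.2 j i ∈ Eqs N ∧ (V.2 j i).Δ ≠ 0) ∧
    QmP (fun i => toQ (V.1 i)) (fun j i => toQ (V.2 j i)) P}.ncard

end MX
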