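import Pool.Agent.Lib.MP_f80667_ag.Mx.Gl
import Pool.Agent.Lib.MP_f80667_ag.Sp.Fd
import Pool.Agent.Lib.MP_f80667_ag.Km.Fd

/-! Products of elliptic curves and Kummer varieties: the theorem. -/

open ZC BE PE IsDedekindDomain NumberField CV KM NE

namespace MX

section nf

variable {F : Type} [Field F] [NumberField F]

/-- The conditions for the single curves. -/
theorem plc_each {ι : Type} {W : ι → WeierstrassCurve F} [∀ i, (W i).IsElliptic] {l : ℕ}
    {W₀ : Fin 0 → WeierstrassCurve F} [∀ i, (W₀ i).IsElliptic] (h₀ : Plc W₀ l)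
    (h : ∀ i, Plc (fun _ : Fin 1 => W i) l) : Plc W l where
  pr := h₀.pr
  odd := h₀.odd
  unr := h₀.unr
  ss v hv i := (h i).ss v hv 0
  jv v i := (h i).jv v 0

/-- The exceptional set is finite. -/
theorem plc_fin' {ι : Type} [Fintype ι] (W : ι → WeierstrassCurve F) [∀ i, (W i).IsElliptic] :
    {l : ℕ | l.Prime ∧ ¬ Plc W l}.Finite := by
  let e : Fin (Fintype.card ι) ≃ ι := (Fintype.equivFin ι).symm
  refine (plc_fin fun i => W (e i)).subset fun l hl => ⟨hl.1, fun h => hl.2 ?_⟩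
  exact
    { pr := h.pr
      odd := h.odd
      unr := h.unr
      ss := fun v hv i => by
        have := h.ss v hv (e.symm i)
        rwa [e.apply_symm_apply] at this
      jv := fun v i m => by
        have h1 := h.jv v (e.symm i) m
        simpa only [e.apply_symm_apply] using h1 }

end nf

variable {r k : ℕ} {n : Fin k → ℕ} {E : Fin r → WeierstrassCurve ℤ}
  {W : ∀ j, Fin (n j) → WeierstrassCurve ℤ}

private theorem fd_all {R : WeierstrassCurve ℤ → Prop} (hE : ∀ i, R (E i)) (hW : ∀ j i, R (W j i))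
    (p : Fin r ⊕ (Σ j, Fin (n j))) :
    ∃ A : WeierstrassCurve ℤ, R A ∧ All (fun i => toQ (E i)) (fun j i => toQ (W j i)) p = toQ A :=
  match p with
  | Sum.inl i => ⟨E i, hE i, rfl⟩
  | Sum.inr p => ⟨W p.1 p.2, hW p.1 p.2, rfl⟩

private theorem fd_plc [∀ i, (toQ (E i)).IsElliptic] [∀ j i, (toQ (W j i)).IsElliptic]
    {R : WeierstrassCurve ℤ → Prop} (hE : ∀ i, R (E i)) (hW : ∀ j i, R (W j i)) {l : ℕ}
    (h : ∀ (m : ℕ) (V : Fin m → WeierstrassCurve ℤ) [∀ i, (toQ (V i)).IsElliptic],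
      (∀ i, R (V i)) → Plc (fun i => toQ (V i)) l) :
    Plc (All (fun i => toQ (E i)) fun j i => toQ (W j i)) l := by
  have h0 : ∀ i : Fin 0, (toQ ((fun i => i.elim0 : Fin 0 → WeierstrassCurve ℤ) i)).IsElliptic :=
    fun i => i.elim0
  have h₀ := h 0 (fun i => i.elim0) (fun i => i.elim0)
  refine plc_each h₀ fun p => ?_
  obtain ⟨A, hA, he⟩ := fd_all hE hW p
  have hAe : (toQ A).IsElliptic := by
    rw [← he]
    infer_instance
  have h1 := h 1 (fun _ => A) (fun _ => hA)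
  exact
    { pr := h1.pr
      odd := h1.odd
      unr := h1.unr
      ss := fun v hv i => by
        have := h1.ss v hv i
        rw [he]
        exact this
      jv := fun v i m => by
        have h2 := h1.jv v i m
        simpa only [he] using h2 }

/-- Squarefree discriminants. -/
theorem main_msq (hn : ∀ j, 0 < n j) (hE : ∀ i, Squarefree (E i).Δ)
    (hW : ∀ j i, Squarefree (W j i).Δ) :
    QmP (fun i => toQ (E i)) (fun j i => toQ (W j i)) {l | l ≠ 2} := by
  have h1 : ∀ j, NeZero (n j) := fun j => NeZero.of_pos (hn j)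
  have h2 : ∀ i, (toQ (E i)).IsElliptic := fun i => ell_toQ (hE i).ne_zero
  have h3 : ∀ j i, (toQ (W j i)).IsElliptic := fun j i => ell_toQ (hW j i).ne_zero
  refine main_mpl (fun h' => h' rfl) fun l hl hp => ?_
  exact fd_plc (R := fun A => Squarefree A.Δ) hE hW fun m V _ hV => sq_pl hV hp hl

/-- Small exponents. -/
theorem main_mdt {L : ℕ} (hL : 3 ≤ L) (hn : ∀ j, 0 < n j) (hE : ∀ i, DtO L (E i))
    (hW : ∀ j i, DtO L (W j i)) :
    QmP (fun i => toQ (E i)) (fun j i => toQ (W j i)) {l | L < l} := by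
  have h1 : ∀ j, NeZero (n j) := fun j => NeZero.of_pos (hn j)
  have h2 : ∀ i, (toQ (E i)).IsElliptic := fun i => ell_toQ (hE i).ne
  have h3 : ∀ j i, (toQ (W j i)).IsElliptic := fun j i => ell_toQ (hW j i).ne
  refine main_mpl (fun h' => ?_) fun l hl hp => ?_
  · have : L < 2 := h'
    omega
  · exact fd_plc (R := DtO L) hE hW fun m V _ hV => dt_pl hL hV hp hl

/-- The proportion `1 - ε` of the curves, the prime numbers greater than `L(ε)`. -/
theorem mx_eps (ε : ℝ) (hε : 0 < ε) : ∃ (L N₀ : ℕ) (S : Set (WeierstrassCurve ℤ)),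
    (∀ N ≥ N₀, (1 - ε) * ((Eqs N).ncard : ℝ) ≤ ((Eqs N ∩ S).ncard : ℝ)) ∧ (∀ A ∈ S, A.Δ ≠ 0) ∧
    ∀ (r k : ℕ) (n : Fin k → ℕ) (E : Fin r → WeierstrassCurve ℤ)
      (W : ∀ j, Fin (n j) → WeierstrassCurve ℤ), (∀ j, 0 < n j) → (∀ i, E i ∈ S) →
      (∀ j i, W j i ∈ S) → QmP (fun i => toQ (E i)) (fun j i => toQ (W j i)) {l | L < l} := by
  obtain ⟨L, hL, N₀, h⟩ := dtO_dens hε 3
  exact ⟨L, N₀, {A | DtO L A}, h, fun A hA => hA.ne,
    fun r k n E W hn hE hW => main_mdt hL hn hE hW⟩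

end MX
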