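import Pool.Agent.Lib.MP_f80667_ag.Mx.Fd
import Pool.Agent.Lib.MP_f80667_ag.Mx.Cs
import Pool.Agent.Lib.MP_f80667_ag.Mx.DefB

/-! Products of elliptic curves and Kummer varieties over `ℚ`: all prime numbers. -/

open ZC BE PE IsDedekindDomain NumberField CV KM NE

namespace MX

/-- No Kummer variety. -/
theorem qm_ok {r : ℕ} {n : Fin 0 → ℕ} {E : Fin r → WeierstrassCurve ℤ} (h : OkN E)
    (W : ∀ j, Fin (n j) → WeierstrassCurve ℤ) :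
    QmP (fun i => toQ (E i)) (fun j i => toQ (W j i)) Set.univ :=
  qn_qm (qn_ok h)

/-- One Kummer surface. -/
theorem qm_two {E : Fin 0 → WeierstrassCurve ℤ} {W : Fin 1 → Fin 2 → WeierstrassCurve ℤ}
    (h : Ok₂ (W 0 0) (W 0 1)) :
    QmP (n := fun _ => 2) (fun i => toQ (E i)) (fun j i => toQ (W j i)) Set.univ :=
  qp_qm (n := fun _ => 2) (kn_two (W := W 0) h)

/-- The families of equations in `Eqs N` are finite in number. -/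
private theorem nm_fin (r k : ℕ) (n : Fin k → ℕ) (N : ℕ) :
    {V : (Fin r → WeierstrassCurve ℤ) × (∀ j, Fin (n j) → WeierstrassCurve ℤ) |
      (∀ i, V.1 i ∈ Eqs N) ∧ ∀ j i, V.2 j i ∈ Eqs N}.Finite := by
  have h1 : {E : Fin r → WeierstrassCurve ℤ | ∀ i, E i ∈ Eqs N}.Finite :=
    Set.Finite.pi' fun _ : Fin r => eqs_fin N
  have h2 : {W : ∀ j, Fin (n j) → WeierstrassCurve ℤ | ∀ j, W j ∈ {W | ∀ i, W i ∈ Eqs N}}.Finite :=
    Set.Finite.pi' fun j : Fin k => Set.Finite.pi' fun _ : Fin (n j) => eqs_fin N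
  exact (h1.prod h2).subset fun V hV => ⟨hV.1, hV.2⟩

/-- No Kummer variety: a positive proportion. -/
theorem nm_zero (r : ℕ) (n : Fin 0 → ℕ) : ∃ c : ℝ, 0 < c ∧ ∃ N₀ : ℕ, ∀ N ≥ N₀,
    c * ((Eqs N).ncard : ℝ) ^ r ≤ (Nx r 0 n N Set.univ : ℝ) := by
  obtain ⟨c, hc, N₀, h⟩ := okn_dens r
  refine ⟨c, hc, N₀, fun N hN => (h N hN).trans ?_⟩
  refine (Nat.cast_le (α := ℝ)).2 ?_
  refine Set.ncard_le_ncard_of_injOn
    (fun E : Fin r → WeierstrassCurve ℤ =>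
      ((E, fun j => j.elim0) : (Fin r → WeierstrassCurve ℤ) × (∀ j : Fin 0, Fin (n j) → WeierstrassCurve ℤ)))
    (fun E hE => ?_) (fun _ _ _ _ h => (Prod.ext_iff.1 h).1) ?_
  · exact ⟨fun i => ⟨hE.1 i, hE.2.ne i⟩, fun j => j.elim0, qm_ok hE.2 _⟩
  · exact (nm_fin r 0 n N).subset fun V hV => ⟨fun i => (hV.1 i).1, fun j i => (hV.2.1 j i).1⟩

/-- One Kummer surface: a positive proportion. -/
theorem nm_two : ∃ c : ℝ, 0 < c ∧ ∃ N₀ : ℕ, ∀ N ≥ N₀,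
    c * ((Eqs N).ncard : ℝ) ^ 2 ≤ (Nx 0 1 (fun _ => 2) N Set.univ : ℝ) := by
  obtain ⟨c, hc, N₀, h⟩ := ok₂_dens
  refine ⟨c, hc, N₀, fun N hN => (h N hN).trans ?_⟩
  refine (Nat.cast_le (α := ℝ)).2 ?_
  refine Set.ncard_le_ncard_of_injOn (fun w : WeierstrassCurve ℤ × WeierstrassCurve ℤ =>
    ((fun i => i.elim0, fun _ => ![w.1, w.2]) :
      (Fin 0 → WeierstrassCurve ℤ) × (∀ _ : Fin 1, Fin 2 → WeierstrassCurve ℤ))) ?_ ?_ ?_
  · rintro ⟨A, B⟩ hw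
    refine ⟨fun i => i.elim0, fun j i => ?_, qm_two hw.2.2⟩
    fin_cases i
    · exact ⟨hw.1, hw.2.2.parts.1.ne_zero⟩
    · exact ⟨hw.2.1, hw.2.2.parts.2.1.ne_zero⟩
  · rintro ⟨A, B⟩ _ ⟨A', B'⟩ _ h
    have h1 := congrFun (Prod.ext_iff.1 h).2 0
    exact Prod.ext (congrFun h1 0) (congrFun h1 1)
  · exact (nm_fin 0 1 (fun _ => 2) N).subset fun V hV =>
      ⟨fun i => (hV.1 i).1, fun j i => (hV.2.1 j i).1⟩

end MX
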