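import Pool.Agent.Lib.MP_f80667_ag.Mx.Def
import Pool.Agent.Lib.MP_f80667_ag.Cv.Tc

/-! The product of products of elliptic curves is a product of elliptic curves. -/

open ZC BE PE Polynomial CV KM NE

namespace MX

variable {F : Type} [Field F] {K Ω : Type} [Field K] [Field Ω] [Algebra K Ω] [Algebra F K]
  [Algebra F Ω] [IsScalarTower F K Ω]

omit [IsScalarTower F K Ω] in
/-- the composite of two maps of cycles -/
private theorem mdc {A B C : Type} (f : A → B) (g : B → C) (k : A → C) (h : ∀ x, g (f x) = k x)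
    (z : A →₀ ℤ) : Finsupp.mapDomain g (Finsupp.mapDomain f z) = Finsupp.mapDomain k z := by
  rw [← Finsupp.mapDomain_comp]
  exact congrArg (fun q => Finsupp.mapDomain q z) (funext h)

/-- a product with another index set, there -/
private def reA {ι ι' : Type} (e : ι ≃ ι') (V : ι' → Vr F) :
    Mo (Vpi V) (Vpi fun i => V (e i)) where
  f _ _ _ x := fun i => x (e i)
  nat _ _ _ _ _ _ _ _ := rfl
  red _ _ _ _ _ _ _ _ _ _ _ _ _ h := fun i => h (e i)

/-- a product with another index set, back -/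
private noncomputable def reB {ι ι' : Type} (e : ι ≃ ι') (V : ι' → Vr F) :
    Mo (Vpi fun i => V (e i)) (Vpi V) where
  f L _ _ x := Equiv.piCongrLeft (fun j => (V j).pt L) e x
  nat L M _ _ _ _ σ x := by
    funext j
    obtain ⟨i, rfl⟩ := e.surjective j
    change (V (e i)).map σ (Equiv.piCongrLeft (fun j => (V j).pt L) e x (e i)) =
      Equiv.piCongrLeft (fun j => (V j).pt M) e (fun i => (V (e i)).map σ (x i)) (e i)
    rw [Equiv.piCongrLeft_apply_apply, Equiv.piCongrLeft_apply_apply]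
  red K L Ω _ _ _ _ _ _ _ w x y h := by
    intro j
    obtain ⟨i, rfl⟩ := e.surjective j
    rw [Equiv.piCongrLeft_apply_apply, Equiv.piCongrLeft_apply_apply]
    exact h i

/-- Another index set. Proof: the isomorphisms (`Mo`, `Cv/Mo.lean`) `x ↦ fun i => x (e i)` and its inverse between `Vpi V` and `Vpi fun i => V (e i)`; `Mo.ratEq`, `Mo.D0`. -/
theorem dvG_re {ι ι' : Type} (e : ι ≃ ι') {V : ι' → Vr F} {m : ℕ}
    (h : DvG (fun i => V (e i)) K Ω m) : DvG V K Ω m := by
  intro z hz ha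
  obtain ⟨w, hw, hwa, hwr⟩ := h _ ((reA e V).D0 hz) fun i => by
    rw [mdc ((reA e V).f Ω) ((pr (V := fun i => V (e i)) i).f Ω) ((pr (V := V) (e i)).f Ω)
      (fun _ => rfl) z]
    exact ha (e i)
  refine ⟨Finsupp.mapDomain ((reB e V).f Ω) w, (reB e V).D0 hw, fun j => ?_, ?_⟩
  · obtain ⟨i, rfl⟩ := e.surjective j
    rw [mdc ((reB e V).f Ω) ((pr (V := V) (e i)).f Ω) ((pr (V := fun i => V (e i)) i).f Ω)
      (fun x => Equiv.piCongrLeft_apply_apply (fun j => (V j).pt Ω) e x i) w]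
    exact hwa i
  · have h1 := (reB e V).ratEq K Ω hwr
    have h2 : Finsupp.mapDomain ((reB e V).f Ω) (Finsupp.mapDomain ((reA e V).f Ω) z - m • w) =
        z - m • Finsupp.mapDomain ((reB e V).f Ω) w := by
      have h3 : Finsupp.mapDomain ((reB e V).f Ω) (Finsupp.mapDomain ((reA e V).f Ω) z) = z := by
        rw [mdc ((reA e V).f Ω) ((reB e V).f Ω) id (fun x => ?_) z, Finsupp.mapDomain_id]
        funext j
        obtain ⟨i, rfl⟩ := e.surjective j
        exact Equiv.piCongrLeft_apply_apply (fun j => (V j).pt Ω) e _ i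
      have h4 := map_sub (Finsupp.mapDomain.addMonoidHom (M := ℤ) ((reB e V).f Ω))
        (Finsupp.mapDomain ((reA e V).f Ω) z) (m • w)
      have h5 := map_nsmul (Finsupp.mapDomain.addMonoidHom (M := ℤ) ((reB e V).f Ω)) m w
      simp only [Finsupp.mapDomain.addMonoidHom_apply] at h4 h5
      rw [h4, h5, h3]
    rw [h2] at h1
    exact h1

variable {r k : ℕ} {n : Fin k → ℕ}

/-- The factors `E i` and the products of the `W j i`. -/
noncomputable def Zm (E : Fin r → WeierstrassCurve F) (W : ∀ j, Fin (n j) → WeierstrassCurve F) :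
    Fin r ⊕ Fin k → Vr F :=
  Sum.elim (fun i => Ev (E i)) fun j => Vpi fun i => Ev (W j i)

/-- the isomorphism of the two products, there -/
private def flA (E : Fin r → WeierstrassCurve F) (W : ∀ j, Fin (n j) → WeierstrassCurve F) :
    Mo (Vpi (Zm E W)) (Vpi fun p => Ev (All E W p)) where
  f L _ _ x := fun p => match p with
    | Sum.inl i => x (Sum.inl i)
    | Sum.inr p => x (Sum.inr p.1) p.2
  nat L M _ _ _ _ σ x := by
    funext p
    match p with
    | Sum.inl i => rfl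
    | Sum.inr p => rfl
  red K L Ω _ _ _ _ _ _ _ w x y h := by
    intro p
    match p with
    | Sum.inl i => exact h (Sum.inl i)
    | Sum.inr p => exact h (Sum.inr p.1) p.2

/-- the isomorphism of the two products, back -/
private def flB (E : Fin r → WeierstrassCurve F) (W : ∀ j, Fin (n j) → WeierstrassCurve F) :
    Mo (Vpi fun p => Ev (All E W p)) (Vpi (Zm E W)) where
  f L _ _ x := fun p => match p with
    | Sum.inl i => x (Sum.inl i)
    | Sum.inr j => fun i => x (Sum.inr ⟨j, i⟩)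
  nat L M _ _ _ _ σ x := by
    funext p
    match p with
    | Sum.inl i => rfl
    | Sum.inr j => rfl
  red K L Ω _ _ _ _ _ _ _ w x y h := by
    intro p
    match p with
    | Sum.inl i => exact h (Sum.inl i)
    | Sum.inr j => exact fun i => h (Sum.inr ⟨j, i⟩)

/-- Proof: the isomorphisms (`Mo`) between `Vpi (Zm E W)` and `Vpi fun p => Ev (All E W p)`: `x ↦ Sum.rec (fun i => x (inl i)) (fun p => x (inr p.1) p.2)` and its inverse; `Mo.ratEq`, `Mo.D0`. -/
theorem dv_fl {E : Fin r → WeierstrassCurve F} {W : ∀ j, Fin (n j) → WeierstrassCurve F} {m : ℕ}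
    (h : DvG (fun p => Ev (All E W p)) K Ω m) {z : (Vpi (Zm E W)).pt Ω →₀ ℤ}
    (hz : z ∈ (Vpi (Zm E W)).D0 K Ω)
    (ha : ∀ i : Fin r, (Finsupp.mapDomain ((pr (V := Zm E W) (Sum.inl i)).f Ω) z :
      (Ev (E i)).pt Ω →₀ ℤ) ∈ (Ev (E i)).ratEq K Ω)
    (hb : ∀ (j : Fin k) (i : Fin (n j)), (Finsupp.mapDomain ((pr (V := fun i => Ev (W j i)) i).f Ω)
      (Finsupp.mapDomain ((pr (V := Zm E W) (Sum.inr j)).f Ω) z :
        (Vpi fun i => Ev (W j i)).pt Ω →₀ ℤ) : (Ev (W j i)).pt Ω →₀ ℤ) ∈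
      (Ev (W j i)).ratEq K Ω) :
    ∃ z' ∈ (Vpi (Zm E W)).D0 K Ω,
      (∀ i : Fin r, (Finsupp.mapDomain ((pr (V := Zm E W) (Sum.inl i)).f Ω) z' :
        (Ev (E i)).pt Ω →₀ ℤ) ∈ (Ev (E i)).ratEq K Ω) ∧
      z - m • z' ∈ (Vpi (Zm E W)).ratEq K Ω := by
  obtain ⟨w, hw, hwa, hwr⟩ := h _ ((flA E W).D0 hz) fun p => by
    match p with
    | Sum.inl i =>
      have e1 := mdc ((flA E W).f Ω) ((pr (V := fun p => Ev (All E W p)) (Sum.inl i)).f Ω)
        ((pr (V := Zm E W) (Sum.inl i)).f Ω) (fun _ => rfl) z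
      exact (congrArg (· ∈ (Ev (E i)).ratEq K Ω) e1).mpr (ha i)
    | Sum.inr p =>
      have e1 := mdc ((flA E W).f Ω) ((pr (V := fun p => Ev (All E W p)) (Sum.inr p)).f Ω)
        (fun x => (pr (V := fun i => Ev (W p.1 i)) p.2).f Ω
          ((pr (V := Zm E W) (Sum.inr p.1)).f Ω x)) (fun _ => rfl) z
      have e2 := mdc ((pr (V := Zm E W) (Sum.inr p.1)).f Ω)
        ((pr (V := fun i => Ev (W p.1 i)) p.2).f Ω)
        (fun x => (pr (V := fun i => Ev (W p.1 i)) p.2).f Ω
          ((pr (V := Zm E W) (Sum.inr p.1)).f Ω x)) (fun _ => rfl) z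
      exact (congrArg (· ∈ (Ev (W p.1 p.2)).ratEq K Ω) (e1.trans e2.symm)).mpr (hb p.1 p.2)
  refine ⟨Finsupp.mapDomain ((flB E W).f Ω) w, (flB E W).D0 hw, fun i => ?_, ?_⟩
  · have e1 := mdc ((flB E W).f Ω) ((pr (V := Zm E W) (Sum.inl i)).f Ω)
      ((pr (V := fun p => Ev (All E W p)) (Sum.inl i)).f Ω) (fun _ => rfl) w
    exact (congrArg (· ∈ (Ev (E i)).ratEq K Ω) e1).mpr (hwa (Sum.inl i))
  · have h1 := (flB E W).ratEq K Ω hwr
    have h2 : Finsupp.mapDomain ((flB E W).f Ω) (Finsupp.mapDomain ((flA E W).f Ω) z - m • w) =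
        z - m • Finsupp.mapDomain ((flB E W).f Ω) w := by
      have h3 : Finsupp.mapDomain ((flB E W).f Ω) (Finsupp.mapDomain ((flA E W).f Ω) z) = z := by
        rw [mdc ((flA E W).f Ω) ((flB E W).f Ω) id (fun x => ?_) z, Finsupp.mapDomain_id]
        funext p
        match p with
        | Sum.inl i => rfl
        | Sum.inr j => rfl
      have h4 := map_sub (Finsupp.mapDomain.addMonoidHom (M := ℤ) ((flB E W).f Ω))
        (Finsupp.mapDomain ((flA E W).f Ω) z) (m • w)
      have h5 := map_nsmul (Finsupp.mapDomain.addMonoidHom (M := ℤ) ((flB E W).f Ω)) m w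
      simp only [Finsupp.mapDomain.addMonoidHom_apply] at h4 h5
      rw [h4, h5, h3]
    rw [h2] at h1
    exact h1

end MX
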