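import Pool.Agent.Lib.MP_f80667_ag.Mx.HtB
import Pool.Agent.Lib.MP_f80667_ag.Sp.GlK
import Pool.Agent.Lib.MP_f80667_ag.Cv.Dv

/-! The theorem for products of elliptic curves and Kummer varieties over number fields. -/

open ZC BE PE Polynomial IntermediateField IsDedekindDomain NumberField CV KM NE

namespace MX

variable {F : Type} [Field F] [NumberField F] {r k : ℕ} {n : Fin k → ℕ}
  {E : Fin r → WeierstrassCurve F} {W : ∀ j, Fin (n j) → WeierstrassCurve F}

theorem plc_comp {ι ι' : Type} {W : ι → WeierstrassCurve F} [∀ i, (W i).IsElliptic] {l : ℕ}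
    (h : Plc W l) (e : ι' → ι) : Plc (fun i => W (e i)) l where
  pr := h.pr
  odd := h.odd
  unr := h.unr
  ss v hv i := h.ss v hv (e i)
  jv v i := h.jv v (e i)

/-- **The theorem.** -/
theorem main_mpl [∀ j, NeZero (n j)] [∀ i, (E i).IsElliptic] [∀ j i, (W j i).IsElliptic]
    {P : Set ℕ} (h2 : 2 ∉ P) (h : ∀ l ∈ P, l.Prime → Plc (All E W) l) : QmP E W P := by
  refine main_mx h2 (fun l hl hp v => ?_) fun j => main_plK h2 fun l hl hp =>
    plc_comp (h l hl hp) fun i => Sum.inr ⟨j, i⟩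
  let e : Fin (Fintype.card (Fin r ⊕ (Σ j, Fin (n j)))) ≃ Fin r ⊕ (Σ j, Fin (n j)) :=
    (Fintype.equivFin _).symm
  refine dvG_re e ?_
  rw [← dvP_iff]
  exact dv_pl (plc_comp (h l hl hp) e) v

end MX
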