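import Pool.Agent.Lib.MP_f80667_ag.Mx.Lc
import Pool.Agent.Lib.MP_f80667_ag.Cv.Hat

/-! The theorem for products of elliptic curves and Kummer varieties. -/

open ZC BE PE Polynomial IntermediateField IsDedekindDomain NumberField CV KM NE

namespace MX

variable {F : Type} [Field F] [NumberField F] {r k : ℕ} {n : Fin k → ℕ}
  {E : Fin r → WeierstrassCurve F} {W : ∀ j, Fin (n j) → WeierstrassCurve F}

/-- The class of a cycle is `0`. -/
private theorem ht_cl {W : Vr F} {K : Type} [Field K] [Algebra F K] (z : Zc W K) :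
    z.cl = 0 ↔ z.cy ∈ W.ratEq K (AlgebraicClosure K) := by
  let w : Dz W K := z
  have h1 : z.cl = 0 ↔ Gp.cls w = Gp.cls (0 : Dz W K) := Iff.rfl
  have h3 : Gp.cls w = Gp.cls (0 : Dz W K) ↔ w.1 - 0 ∈ W.ratEq K (AlgebraicClosure K) :=
    Gp.cls_eq
  rw [sub_zero] at h3
  exact h1.trans h3

/-- The local theorem for classes. Proof: `loc_mx` for `z.cy`, `Ω` the algebraic closure; as `dvG_zero`, `dvP_iff` (`Cv/Dv.lean`), `dm_cl`. -/
theorem dv_mx [∀ j, NeZero (n j)] [∀ i, (E i).IsElliptic] [∀ j i, (W j i).IsElliptic]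
    {K : Type} [Field K] [CharZero K] [Algebra F K] {m : ℕ} (hm : Odd m)
    (h : DvG (fun p => Ev (All E W p)) K (AlgebraicClosure K) m) (z : Zc (Xm E W) K)
    (ha : ∀ i : Fin r, (psh (V := Vm E W) (Sum.inl i) z).cl = 0) :
    ∃ z' : Zc (Xm E W) K, (∀ i : Fin r, (psh (V := Vm E W) (Sum.inl i) z').cl = 0) ∧
      z.cl = m • z'.cl := by
  obtain ⟨z', hz', ha', hr⟩ := loc_mx hm h (z := z.cy) z.2
    (fun i => (ht_cl (psh (V := Vm E W) (Sum.inl i) z)).1 (ha i))
  refine ⟨⟨z', hz'⟩, fun i => (ht_cl (psh (V := Vm E W) (Sum.inl i) ⟨z', hz'⟩)).2 (ha' i), ?_⟩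
  let w : Dz (Xm E W) K := ⟨z', hz'⟩
  have h6 : m • (Zc.cl (V := Xm E W) (K := K) ⟨z', hz'⟩) = Gp.clsH (Xm E W) K (m • w) :=
    (map_nsmul (Gp.clsH (Xm E W) K) m w).symm
  rw [h6]
  exact Gp.cls_eq.2 hr

/-- Divisibility by the numbers with all prime factors in `P`. -/
private theorem ht_of [∀ j, NeZero (n j)] [∀ i, (E i).IsElliptic] [∀ j i, (W j i).IsElliptic]
    {K : Type} [Field K] [CharZero K] [Algebra F K] {P : Set ℕ} (h2 : 2 ∉ P)
    (h : ∀ l ∈ P, l.Prime → DvG (fun p => Ev (All E W p)) K (AlgebraicClosure K) l)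
    (m : ℕ) (hm : m ≠ 0) (hS : Sf P m) (z : Zc (Xm E W) K)
    (ha : ∀ i : Fin r, (psh (V := Vm E W) (Sum.inl i) z).cl = 0) :
    ∃ z' : Zc (Xm E W) K, (∀ i : Fin r, (psh (V := Vm E W) (Sum.inl i) z').cl = 0) ∧
      z.cl = m • z'.cl := by
  induction m using induction_on_primes generalizing z with
  | zero => exact absurd rfl hm
  | one => exact ⟨z, ha, (one_nsmul _).symm⟩
  | prime_mul p m hp ih =>
    have hpP : p ∈ P := hS p hp (dvd_mul_right p m)
    have hpo : Odd p := hp.odd_of_ne_two fun h3 => h2 (h3 ▸ hpP)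
    obtain ⟨y, hy, e⟩ := dv_mx hpo (h p hpP hp) z ha
    obtain ⟨x, hx, e'⟩ := ih (right_ne_zero_of_mul hm) (fun l hl hd => hS l hl (hd.mul_left p)) y hy
    exact ⟨x, hx, by rw [e, e', mul_nsmul']⟩

/-- The families. Proof: as `fam_dvP` (`Cv/Hat.lean`): induction on the prime factors of `m` as in `dvP_of`; at the infinite places `m` is odd and twice a class is `0`. -/
theorem fam_mx [∀ j, NeZero (n j)] [∀ i, (E i).IsElliptic] [∀ j i, (W j i).IsElliptic]
    {P : Set ℕ} (h2 : 2 ∉ P) (h : ∀ l ∈ P, l.Prime → ∀ v : HeightOneSpectrum (𝓞 F),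
      DvG (fun p => Ev (All E W p)) (FK F v) (AlgebraicClosure (FK F v)) l)
    (m : ℕ) (hm : m ≠ 0) (hS : Sf P m) (c : Fam (Xm E W))
    (hc : ∀ i : Fin r, (pshA (V := Vm E W) (Sum.inl i) c).cl = 0) :
    ∃ c' : Fam (Xm E W), (∀ i : Fin r, (pshA (V := Vm E W) (Sum.inl i) c').cl = 0) ∧
      c.cl = m • c'.cl := by
  have h1 : ∀ (v : HeightOneSpectrum (𝓞 F)) (i : Fin r),
      (psh (V := Vm E W) (Sum.inl i) (c.f v)).cl = 0 := fun v i =>
    congrFun (congrArg Prod.fst (hc i)) v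
  choose g hg using fun v => ht_of h2 (fun l hl hp => h l hl hp v) m hm hS (c.f v) (h1 v)
  have h3 : Odd m := by
    rw [← Nat.not_even_iff_odd, even_iff_two_dvd]
    exact fun h' => h2 (hS 2 Nat.prime_two h')
  refine ⟨(g, c.i), fun i => Prod.ext (funext fun v => (hg v).1 i)
    (by have h4 := congrArg Prod.snd (hc i); exact h4), Prod.ext (funext fun v => (hg v).2) (funext fun v => ?_)⟩
  change (c.i v).clN = m • (c.i v).clN
  obtain ⟨k, rfl⟩ := h3
  rw [add_smul, one_smul, mul_smul, smul_comm, clN_two, smul_zero, zero_add]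

end MX
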