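import Pool.Agent.Lib.MP_f80667_ag.Mx.Ht
import Pool.Agent.Lib.MP_f80667_ag.Mx.Bk
import Pool.Agent.Lib.MP_f80667_ag.Kf.Dtg

/-! The theorem for products of elliptic curves and Kummer varieties. -/

open ZC BE PE Polynomial IntermediateField IsDedekindDomain NumberField CV KM NE

namespace MX

variable {F : Type} [Field F] [NumberField F] {r k : ℕ} {n : Fin k → ℕ}
  {E : Fin r → WeierstrassCurve F} {W : ∀ j, Fin (n j) → WeierstrassCurve F}

/-- The push-forward of an element of the completion. Proof: `LHat.map` (`Fa/Adl.lean`) for the homomorphism of the groups of families `(pr i).fa` (`Cv/Mo.lean`). -/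
theorem exists_ps {ι : Type} {V : ι → Vr F} (i : ι) (z : LHat (FA (Vpi V))) :
    ∃ z' : LHat (FA (V i)), IsPs i z z' :=
  ⟨LHat.map ((pr i).fa) z, fun _ _ hc => hc.map ((pr i).fa)⟩

/-- **The theorem.** Proof: `fam_mx`; `imDeS_iff` (`Cv/Hat.lean`) for `V = Vm E W` with the base points `bpE (E i)` (`Nf/Ee.lean`), `bpK (W j)` and the push-forwards `z' i` to `inl i` and `exists_ps` to `inr j`, which are in the image by `hK`. -/
theorem main_mx [∀ j, NeZero (n j)] [∀ i, (E i).IsElliptic] [∀ j i, (W j i).IsElliptic]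
    {P : Set ℕ} (h2 : 2 ∉ P) (h : ∀ l ∈ P, l.Prime → ∀ v : HeightOneSpectrum (𝓞 F),
      DvG (fun p => Ev (All E W p)) (FK F v) (AlgebraicClosure (FK F v)) l)
    (hK : ∀ j, QP (Kum fun i => (W j i).Ψ₂Sq) P) : QmP E W P := by
  have hd := fun (m : ℕ) (hm : m ≠ 0) (hS : Sf P m) (c : Fam (Xm E W))
    (hc : ∀ i : Fin r, (pshA (V := Vm E W) (Sum.inl i) c).cl = 0) => fam_mx h2 h m hm hS c hc
  refine ⟨hd, fun z z' hz => ⟨fun hz' i => imDeS_psh (V := Vm E W) (Sum.inl i) (hz i) hz', fun hz' => ?_⟩⟩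
  choose y hy using fun j : Fin k => exists_ps (V := Vm E W) (Sum.inr j) z
  let o : ∀ p, Bp (Vm E W p) := fun p => match p with
    | Sum.inl i => bpE (E i)
    | Sum.inr j => bpK (W j)
  let x : ∀ p, LHat (FA (Vm E W p)) := fun p => match p with
    | Sum.inl i => z' i
    | Sum.inr j => y j
  have hx : ∀ p, IsPs (V := Vm E W) p z (x p) := fun p => match p with
    | Sum.inl i => hz i
    | Sum.inr j => hy j
  have hx' : ∀ p, ImDeS P (x p) := fun p => match p with
    | Sum.inl i => hz' i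
    | Sum.inr j => (hK j).2 (y j)
  refine imDeS_of (V := Vm E W) o (fun m hm hS c hc => ?_) hx hx'
  obtain ⟨c', -, hc'⟩ := hd m hm hS c fun i => hc (Sum.inl i)
  exact ⟨c', hc'⟩

end MX
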