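import Pool.Agent.Lib.MP_f80667_ag.Mx.Qd
import Pool.Agent.Lib.MP_f80667_ag.Km.Pl
import Pool.Agent.Lib.MP_f80667_ag.Pe.Kg

/-! The Kummer variety as a quotient. -/

open ZC BE PE Polynomial IntermediateField CV NE KM

namespace MX

variable {F : Type} [Field F] {n : ℕ}

private theorem kq_cst {f : Fin n → F[X]} {K Ω : Type} [Field K] [Field Ω] [Algebra K Ω]
    [Algebra F K] [Algebra F Ω] [IsScalarTower F K Ω] [CharZero K] [IsAlgClosure K Ω]
    (M : IntermediateField K Ω) (y : (Kum f).pt Ω) (hy : Fp (Kum f) M y) (E : Type) [Field E]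
    [Algebra M E] [Algebra F E] [IsScalarTower F M E] :
    ∃ x' : (Kum f).pt (AlgebraicClosure E), (Kum f).Rat E x' ∧
      ∀ w : Place M (AlgebraicClosure E) Ω, (Kum f).red w x' y := by
  have hM : CharZero M := charZero_of_injective_algebraMap (algebraMap K M).injective
  have hA : IsAlgClosure M Ω :=
    ⟨IsAlgClosure.isAlgClosed K, (IsAlgClosure.isAlgebraic (R := K) (K := Ω)).tower_top M⟩
  have hT : IsScalarTower F M Ω := IsScalarTower.of_algebraMap_eq fun _ => rfl
  obtain ⟨P, rfl⟩ := exists_kdesc (K := M) (x := y) fun σ =>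
    hy (σ.restrictScalars K) ((IntermediateField.mem_fixingSubgroup_iff M _).2 fun a ha =>
      σ.commutes ⟨a, ha⟩)
  induction P using Quotient.inductionOn with
  | h P =>
    let τ : M →ₐ[F] AlgebraicClosure E := IsScalarTower.toAlgHom F M (AlgebraicClosure E)
    refine ⟨Quotient.mk _ (P.mp τ), fun σ => ?_, fun w => ?_⟩
    · have h1 : ∀ a : M, σ (τ a) = τ a := fun a => by
        change σ (algebraMap M (AlgebraicClosure E) a) = algebraMap M (AlgebraicClosure E) a
        rw [IsScalarTower.algebraMap_apply M E (AlgebraicClosure E), AlgEquiv.commutes]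
      refine Quotient.sound ⟨fun _ => 1, 1, fun _ => one_ne_zero, one_ne_zero, fun i => ?_,
        fun i => ?_⟩
      · change (τ (P.x i).1, τ (P.x i).2) = (1 * σ (τ (P.x i).1), 1 * σ (τ (P.x i).2))
        rw [h1, h1, one_mul, one_mul]
      · change τ (P.t i) = 1 * 1 ^ 2 * σ (τ (P.t i))
        rw [h1, one_pow, one_mul, one_mul]
    · exact ⟨P.mp τ, P.mp (IsScalarTower.toAlgHom F M Ω), rfl, rfl,
        fun i => ⟨w.mem _, w.mem _, w.res_k _, w.res_k _⟩, fun i => ⟨w.mem _, w.res_k _⟩⟩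

/-- Proof: `kfp` (`Km/De.lean`); the constant points: `exists_kdesc` (`Km/De.lean`) over `M`: `y` has coordinates in `M`; `x'` has the same coordinates (as `Kp (Ev W)`, `kpE` in `Nf/Ee.lean`). -/
instance kpK (f : Fin n → F[X]) : Kp (Kum f) where
  fp K Ω _ _ _ _ _ _ _ _ x := kfp x
  cst K Ω _ _ _ _ _ _ _ _ M y hy E _ _ _ _ := by
    exact kq_cst M y hy E

variable [NumberField F]

/-- The change of coordinates. -/
noncomputable def qm (W : Fin n → WeierstrassCurve F) (i : Fin n) : Qm (W i).Ψ₂Sq (W i) :=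
  (exists_qmK (W i)).some

/-- The Kummer variety is the quotient of the product. Proof of the fields: `kpi_map`, `knu_map`, `kpi_red`, `nu_ratEq`, `kpi_kpt`, `kpi_neg`, `kpi_inj` (`Km/Pi.lean`, `Km/Pr.lean`, `Km/Nu.lean`, `Km/Pl.lean`). -/
noncomputable def qK [NeZero n] (W : Fin n → WeierstrassCurve F) [∀ i, (W i).IsElliptic] :
    Qd (Vpi fun i => Ev (W i)) (Kum fun i => (W i).Ψ₂Sq) where
  π L _ _ P := kpi (qm W) P
  ν L _ _ x := knu x
  π_nat L M _ _ _ _ σ x := by
    exact kpi_map (M := F) (qm W) σ x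
  ν_nat L M _ _ _ _ σ x := by
    exact (knu_map σ x).symm
  red K L Ω _ _ _ _ _ _ _ _ _ _ w x y h := by
    exact kpi_red (M := F) w (qm W) h
  ν_eq K Ω _ _ _ _ _ _ _ _ z hz := nu_ratEq hz
  J := Bool
  fin := inferInstance
  pb Ω _ _ _ _ v j := if j then (fun i => -kpt (qm W) v i) else kpt (qm W) v
  π_pb Ω _ _ _ _ v j := by
    cases j
    · exact kpi_kpt (qm W) v
    · exact (kpi_neg (qm W) (kpt (qm W) v)).trans (kpi_kpt (qm W) v)
  pb_act Ω _ _ _ _ σ v := by
    have h1 : kpi (qm W) (kpt (qm W) ((Kum fun i => (W i).Ψ₂Sq).map (σ : Ω →ₐ[F] Ω) v)) =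
        kpi (qm W) (fun i => Pt.map (W i) (σ : Ω →ₐ[F] Ω) (kpt (qm W) v i)) := by
      rw [KM.kpi_kpt, KM.knu_map, ← KM.kpi_kpt (qm W) v]
      exact kpi_map (M := F) (qm W) (σ : Ω →ₐ[F] Ω) (kpt (qm W) v)
    rcases kpi_inj (qm W) h1 with h2 | h2
    · refine ⟨Equiv.refl _, fun j => ?_⟩
      cases j
      · exact h2
      · refine funext fun i => ?_
        refine (congrArg Neg.neg (congrFun h2 i)).trans ?_
        exact (map_neg (Pt.map (W i) (σ : Ω →ₐ[F] Ω)) _).symm
    · refine ⟨Equiv.boolNot, fun j => ?_⟩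
      cases j
      · refine funext fun i => ?_
        refine (congrFun h2 i).trans ?_
        exact (map_neg (Pt.map (W i) (σ : Ω →ₐ[F] Ω)) _).symm
      · refine funext fun i => ?_
        refine (congrArg Neg.neg (congrFun h2 i)).trans ?_
        exact neg_neg _

omit [NumberField F] in
private theorem kq_abel {W : Fin n → WeierstrassCurve F} [∀ i, (W i).IsElliptic] {K Ω : Type}
    [Field K] [CharZero K] [Field Ω] [Algebra F K] [Algebra K Ω]
    [Algebra F Ω] [IsScalarTower F K Ω] [IsAlgClosure K Ω] {i : Fin n}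
    {z : (∀ i, Pt (W i) Ω) →₀ ℤ} (hz : z ∈ (Vpi fun i => Ev (W i)).D0 K Ω)
    (hs : sm (Finsupp.mapDomain (fun P : ∀ i, Pt (W i) Ω => P i) z) = 0) :
    Finsupp.mapDomain ((pr (V := fun i => Ev (W i)) i).f Ω) z ∈ (Ev (W i)).ratEq K Ω := by
  have hO : IsAlgClosed Ω := IsAlgClosure.isAlgClosed K
  have h1 := (pr (V := fun i => Ev (W i)) i).D0 hz
  have hc : ∀ γ : Ω ≃ₐ[K] Ω, Finsupp.mapDomain (fun x => γ • x)
      (Finsupp.mapDomain (fun P : ∀ i, Pt (W i) Ω => P i) z) =
      Finsupp.mapDomain (fun P : ∀ i, Pt (W i) Ω => P i) z := fun γ => h1.1 γ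
  have hd : dg (Finsupp.mapDomain (fun P : ∀ i, Pt (W i) Ω => P i) z) = 0 := h1.2
  exact (AddSubgroup.closure_le _).2 (fun y hy => pv_ratEq_ev hy) (abel (K := K) _ hc hd hs)

private theorem kq_pull [NeZero n] (W : Fin n → WeierstrassCurve F) [∀ i, (W i).IsElliptic]
    {Ω : Type} [Field Ω] [CharZero Ω] [IsAlgClosed Ω] [Algebra F Ω]
    (z : (Kum fun i => (W i).Ψ₂Sq).pt Ω →₀ ℤ) : (qK W).pull z = kpull (qm W) z := by
  have h : (qK W).pull = (kpull (Ω := Ω) (qm W) : _ →+ _) := by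
    ext x : 2
    change (qK W).pull (Finsupp.single x 1) = kpull (qm W) (Finsupp.single x 1)
    rw [Qd.pull_single, KM.kpull_single]
    change ∑ j : Bool, Finsupp.single (if j then (fun i => -kpt (qm W) x i) else kpt (qm W) x)
      (1 : ℤ) = kpb (qm W) x
    rw [Fintype.sum_bool, KM.kpb, add_comm]
    rfl
  exact DFunLike.congr_fun h z

/-- The pull-back of a cycle of degree `0` is in the Albanese kernel. Proof: `(qK W).pull = kpull` (`pull_single`, `kpull_single`), `kpull_pr`, `pull_mem` and `pl_abel` (`Km/Pl.lean`, private: copy). -/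
theorem pull_alb [NeZero n] (W : Fin n → WeierstrassCurve F) [∀ i, (W i).IsElliptic] {K Ω : Type}
    [Field K] [CharZero K] [Field Ω] [CharZero Ω] [IsAlgClosed Ω] [Algebra F K] [Algebra K Ω]
    [Algebra F Ω] [IsScalarTower F K Ω] [IsAlgClosure K Ω]
    {z : (Kum fun i => (W i).Ψ₂Sq).pt Ω →₀ ℤ} (hz : z ∈ (Kum fun i => (W i).Ψ₂Sq).D0 K Ω)
    (i : Fin n) :
    Finsupp.mapDomain ((pr (V := fun i => Ev (W i)) i).f Ω) ((qK W).pull z) ∈
      (Ev (W i)).ratEq K Ω := by
  rw [kq_pull]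
  exact kq_abel (kpull_mem (qm W) hz) (kpull_pr (qm W) i z)

end MX
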