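import Pool.Agent.Lib.MP_f80667_ag.Mx.Qd
import Pool.Agent.Lib.MP_f80667_ag.Fa.Inv

/-!
Quotients: the push-forward of cycles rationally equivalent to `0`.

* `Uc V`: the reduction is compatible with the automorphisms of `Ω`, the values of the points over function fields are
unique. This is not a consequence of `Hf V`.
* `ratEq_le_cyc`: the cycles rationally equivalent to `0` are cycles over `K`.
* `Qd.push_ratEq`: the push-forward of a cycle rationally equivalent to `0`.
-/

open ZC BE PE Polynomial IntermediateField CV NE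

namespace MX

variable {F : Type} [Field F]

/-- The reduction is compatible with the automorphisms of `Ω`, the values of the points over function fields are unique. -/
class Uc (V : Vr F) : Prop where
  gal : ∀ (K L Ω : Type) [Field K] [Field L] [Field Ω] [Algebra K L] [Algebra K Ω] [Algebra F K]
    [Algebra F L] [Algebra F Ω] [IsScalarTower F K L] [IsScalarTower F K Ω] (σ : Ω ≃ₐ[K] Ω)
    (w : Place K L Ω) (x : V.pt L) (y : V.pt Ω), V.red w x y → V.red (w.gal σ) x (V.act σ y)
  val : ∀ (K E Ω : Type) [Field K] [CharZero K] [Field E] [Field Ω] [Algebra K E] [Algebra K Ω]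
    [Algebra F K] [Algebra F E] [Algebra F Ω] [IsScalarTower F K E] [IsScalarTower F K Ω]
    (w : Place K E Ω) (x : V.pt (AlgebraicClosure E)) (y y' : V.pt Ω), V.Rat E x →
    V.IsVal w x y → V.IsVal w x y' → y = y'

instance {ι : Type} (V : ι → Vr F) [∀ i, Uc (V i)] : Uc (Vpi V) where
  gal K L Ω _ _ _ _ _ _ _ _ _ _ σ w x y h := fun i => Uc.gal K L Ω σ w (x i) (y i) (h i)
  val K E Ω _ _ _ _ _ _ _ _ _ _ _ w x y y' hx h h' := by
    obtain ⟨W, h1, h2, h3⟩ := h
    obtain ⟨W', h1', h2', h3'⟩ := h'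
    exact funext fun i => Uc.val K E Ω w (x i) (y i) (y' i) (fun σ => congrFun (hx σ) i)
      ⟨W, h1, h2, h3 i⟩ ⟨W', h1', h2', h3' i⟩

namespace Qd

variable {Z V : Vr F} (q : Qd Z V)

section rat

variable {K Ω : Type} [Field K] [CharZero K] [Field Ω] [Algebra K Ω] [Algebra F K] [Algebra F Ω]
  [IsScalarTower F K Ω]

omit [CharZero K] in
/-- The values at the composite of a place and an automorphism. -/
private theorem qdb_val (V : Vr F) [Uc V] {E : Type} [Field E] [Algebra K E] [Algebra F E]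
    [IsScalarTower F K E] (σ : Ω ≃ₐ[K] Ω) {w : Place K E Ω} {x : V.pt (AlgebraicClosure E)}
    {y : V.pt Ω} (h : V.IsVal w x y) : V.IsVal (w.gal σ) x (V.act σ y) := by
  obtain ⟨W, h1, h2, h3⟩ := h
  exact ⟨W.gal σ, h1, fun a ha ha' => congrArg σ (h2 a ha ha'), Uc.gal _ _ _ σ W x y h3⟩

/-- The cycles rationally equivalent to `0` are cycles over `K`. -/
theorem ratEq_le_cyc (V : Vr F) [Uc V] : V.ratEq K Ω ≤ V.cyc K Ω := by
  refine (AddSubgroup.closure_le _).2 ?_
  rintro z ⟨E, _, _, _, _, hE, G, x, hG, hx, S, m, y, h1, h2, rfl⟩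
  intro σ
  refine sum_inv σ (V.act σ) S m y h1 (fun v hv => (h2 v hv).1) fun v hv hv' => ?_
  exact Uc.val K E Ω (v.gal σ) x _ _ hx (h2 _ hv').2 (qdb_val V σ (h2 v hv).2)

variable [IsAlgClosure K Ω]

/-- The push-forward of a cycle rationally equivalent to `0`. -/
theorem push_ratEq [Uc V] {z : Z.pt Ω →₀ ℤ} (hz : z ∈ Z.ratEq K Ω) :
    Finsupp.mapDomain (q.π Ω) z ∈ V.ratEq K Ω := by
  classical
  have h : Z.ratEq K Ω ≤ (V.ratEq K Ω).comap (Finsupp.mapDomain.addMonoidHom (q.π Ω)) := by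
    rw [Vr.ratEq, AddSubgroup.closure_le]
    rintro _ ⟨E, i1, i2, i3, i4, hE, G, x, hG, hx, S, m, y, hS, hv, rfl⟩
    change Finsupp.mapDomain (q.π Ω) _ ∈ V.ratEq K Ω
    by_cases hne : Nonempty (V.pt Ω)
    · have h1 : ∀ w ∈ S, ∃ u : V.pt Ω, V.IsVal w (q.π (AlgebraicClosure E) x) u ∧
          q.ν Ω u = q.π Ω (y w) := by
        intro w hw
        obtain ⟨W', h2, h3, h4⟩ := (hv w hw).2
        obtain ⟨u, hu, hu'⟩ := q.red K (AlgebraicClosure E) Ω W' x (y w) h4
        exact ⟨u, ⟨W', h2, h3, hu⟩, hu'⟩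
      choose! u hu hu' using h1
      have h2 : ∑ w ∈ S, Finsupp.single (u w) (m w) ∈ V.ratEq K Ω := by
        refine AddSubgroup.subset_closure ⟨E, i1, i2, i3, i4, hE, G,
          q.π (AlgebraicClosure E) x, hG, fun σ => ?_, S, m, u, hS,
          fun w hw => ⟨(hv w hw).1, hu w hw⟩, rfl⟩
        have h3 := q.π_nat (AlgebraicClosure E) (AlgebraicClosure E)
          (σ.restrictScalars F : AlgebraicClosure E →ₐ[F] AlgebraicClosure E) x
        refine Eq.trans h3 ?_
        exact congrArg (q.π (AlgebraicClosure E)) (hx σ)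
      have h3 := add_mem (q.ν_eq K Ω _ (ratEq_le_cyc V h2)) h2
      rw [sub_add_cancel] at h3
      have e : Finsupp.mapDomain (q.π Ω) (∑ w ∈ S, Finsupp.single (y w) (m w)) =
          Finsupp.mapDomain (q.ν Ω) (∑ w ∈ S, Finsupp.single (u w) (m w)) := by
        rw [Finsupp.mapDomain_finsetSum, Finsupp.mapDomain_finsetSum]
        refine Finset.sum_congr rfl fun w hw => ?_
        rw [Finsupp.mapDomain_single, Finsupp.mapDomain_single, hu' w hw]
      exact e ▸ h3
    · have e : Finsupp.mapDomain (q.π Ω) (∑ w ∈ S, Finsupp.single (y w) (m w)) = 0 := by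
        ext v
        exact absurd ⟨v⟩ hne
      rw [e]
      exact zero_mem _
  exact h hz

end rat

end Qd

end MX
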