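import Pool.Agent.Lib.MP_f80667_ag.Mx.Qp

/-! The product of quotients. -/

open ZC BE PE Polynomial IntermediateField CV NE

namespace MX

variable {F : Type} [Field F] {ι : Type} [Fintype ι] [DecidableEq ι] {Z V : ι → Vr F}
  [∀ i, Hf (V i)] [∀ i, Kp (V i)]

/-- The product. -/
def Qd.pi (q : ∀ i, Qd (Z i) (V i)) : Qd (Vpi Z) (Vpi V) where
  π L _ _ x := fun i => (q i).π L (x i)
  ν L _ _ x := fun i => (q i).ν L (x i)
  π_nat L M _ _ _ _ σ x := funext fun i => (q i).π_nat L M σ (x i)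
  ν_nat L M _ _ _ _ σ x := funext fun i => (q i).ν_nat L M σ (x i)
  red K L Ω _ _ _ _ _ _ _ _ _ _ w x y h := by
    choose v h1 h2 using fun i => (q i).red K L Ω w (x i) (y i) (h i)
    exact ⟨v, h1, funext h2⟩
  ν_eq K Ω _ _ _ _ _ _ _ _ z hz := pi_ν_eq q hz
  J := ∀ i, (q i).J
  fin := inferInstance
  pb Ω _ _ _ _ v c := fun i => (q i).pb Ω (v i) (c i)
  π_pb Ω _ _ _ _ v c := funext fun i => (q i).π_pb Ω (v i) (c i)
  pb_act Ω _ _ _ _ σ v := by
    choose e he using fun i => (q i).pb_act Ω σ (v i)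
    exact ⟨Equiv.piCongrRight e, fun c => funext fun i => he i (c i)⟩

private theorem qpi_sum {J : ι → Type} [∀ i, Fintype (J i)] {M : Type} [AddCommMonoid M] (a : ι)
    (f : J a → M) :
    ∑ j : (∀ i, J i), f (j a) =
      (∏ b ∈ Finset.univ.erase a, Fintype.card (J b)) • ∑ c : J a, f c := by
  rw [Fintype.sum_equiv (Equiv.piSplitAt a J) (fun j => f (j a)) (fun p => f p.1) fun j => rfl,
    Fintype.sum_prod_type]
  have h1 : ∏ b ∈ Finset.univ.erase a, Fintype.card (J b) =
      Fintype.card (∀ j : {j // j ≠ a}, J j) := by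
    rw [Fintype.card_pi]
    exact Finset.prod_subtype _ (fun x => by simp) _
  rw [h1, Finset.smul_sum]
  refine Finset.sum_congr rfl fun c _ => ?_
  change ∑ _y : (∀ j : {j // j ≠ a}, J j), f c = _
  rw [Finset.sum_const, Finset.card_univ]

private theorem qpi_pull {Z V : Vr F} (q : Qd Z V) {Ω : Type} [Field Ω] [CharZero Ω]
    [IsAlgClosed Ω] [Algebra F Ω] (v : V.pt Ω) (n : ℤ) :
    q.pull (Finsupp.single v n) = n • ∑ j : q.J, Finsupp.single (q.pb Ω v j) 1 := by
  unfold Qd.pull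
  rw [Finsupp.liftAddHom_apply_single, zmultiplesHom_apply]

/-- The projections of the pull-back. Proof: for a point (`Finsupp.induction_linear`): `∑ c, single (pb (v a) (c a)) 1`, the number of the `c` with given `c a` is the product of the other cardinalities (`Fintype.card_pi`, `Fintype.piFinset`, or `Equiv.funSplitAt` / `Fintype.sum_equiv`). -/
theorem pull_pr (q : ∀ i, Qd (Z i) (V i)) {Ω : Type} [Field Ω] [CharZero Ω] [IsAlgClosed Ω]
    [Algebra F Ω] (a : ι) (z : (Vpi V).pt Ω →₀ ℤ) :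
    Finsupp.mapDomain (fun x : (Vpi Z).pt Ω => x a) ((Qd.pi q).pull z) =
      (∏ b ∈ Finset.univ.erase a, Fintype.card (q b).J) •
        (q a).pull (Finsupp.mapDomain (fun x : (Vpi V).pt Ω => x a) z) := by
  induction z using Finsupp.induction_linear with
  | zero => rw [map_zero, Finsupp.mapDomain_zero, Finsupp.mapDomain_zero, map_zero, smul_zero]
  | add z w hz hw =>
    rw [map_add, Finsupp.mapDomain_add, hz, hw, Finsupp.mapDomain_add, map_add, smul_add]
  | single v n =>
    rw [qpi_pull, Finsupp.mapDomain_single, qpi_pull, ← smul_comm,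
      ← qpi_sum (J := fun i => (q i).J) a fun c => Finsupp.single ((q a).pb Ω (v a) c) (1 : ℤ)]
    have h1 : ∀ w : (Vpi Z).pt Ω →₀ ℤ, Finsupp.mapDomain (fun x : (Vpi Z).pt Ω => x a) (n • w) =
        n • Finsupp.mapDomain (fun x : (Vpi Z).pt Ω => x a) w := fun w =>
      map_zsmul (Finsupp.mapDomain.addMonoidHom fun x : (Vpi Z).pt Ω => x a) n w
    rw [h1]
    congr 1
    have h2 := map_sum (Finsupp.mapDomain.addMonoidHom (M := ℤ) fun x : (Vpi Z).pt Ω => x a)
      (fun j : (Qd.pi q).J => Finsupp.single ((Qd.pi q).pb Ω v j) (1 : ℤ)) Finset.univ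
    refine h2.trans (Finset.sum_congr rfl fun j _ => ?_)
    exact Finsupp.mapDomain_single

end MX
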