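import Pool.Agent.Lib.MP_f80667_ag.Mx.QdB
import Pool.Agent.Lib.MP_f80667_ag.Km.De
import Pool.Agent.Lib.MP_f80667_ag.Km.Va
import Pool.Agent.Lib.MP_f80667_ag.Nf.Ee
import Pool.Agent.Lib.MP_f80667_ag.Be.PlR
import Pool.Agent.Lib.MP_f80667_ag.Be.PlX

/-! The values of the points of the elliptic curves and of the Kummer varieties over function fields are unique. -/

open ZC BE PE Polynomial IntermediateField CV NE KM

namespace MX

variable {F : Type} [Field F]

/-- A value at a place above is a value at the place. -/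
private theorem uc_down {K E Ω : Type} [Field K] [Field E] [Field Ω] [Algebra K E] [Algebra K Ω]
    [Algebra F E] [Algebra F Ω] {W₀ : WeierstrassCurve F} {w : Place K E Ω}
    {W : Place K (AlgebraicClosure E) Ω} (hW : Above w W) {P : Pt W₀ E} {Q : Pt W₀ Ω}
    (h : Pt.Red W₀ W (Pt.map W₀ (IsScalarTower.toAlgHom F E (AlgebraicClosure E)) P) Q) :
    Pt.Red W₀ w P Q := by
  match P, h with
  | .zero, h => exact h
  | .some x y hxy, h =>
    rcases h with ⟨hx, rfl⟩ | ⟨hx, hy, hn, rfl⟩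
    · exact Or.inl ⟨fun hx' => hx ((hW.1 x).2 hx'), rfl⟩
    · have hx' : x ∈ w.V := (hW.1 x).1 hx
      have hy' : y ∈ w.V := (hW.1 y).1 hy
      have ex := hW.2 x hx' hx
      have ey := hW.2 y hy' hy
      refine (red_aff_iff w hxy).2 (Or.inr ⟨_, _, hn, ⟨hx', ex.symm⟩, ⟨hy', ey.symm⟩, rfl⟩)

instance ucE (W : WeierstrassCurve F) : Uc (Ev W) where
  gal K L Ω _ _ _ _ _ _ _ _ _ _ σ w x y h := by
    change Pt.Red W w x y at h
    change Pt.Red W (w.gal σ) x (σ • (show Pt W Ω from y))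
    revert h
    generalize (show Pt W Ω from y) = Q
    intro h
    match x, h with
    | .zero, h =>
      change Q = 0 at h
      change σ • Q = 0
      rw [h, smul_zero]
    | .some a b _, h =>
      rcases h with ⟨hx, rfl⟩ | ⟨hx, hy, hn, rfl⟩
      · exact Or.inl ⟨hx, smul_zero _⟩
      · exact Or.inr ⟨hx, hy, (WeierstrassCurve.Affine.baseChange_nonsingular (W := W)
          (f := (σ.restrictScalars F : Ω →ₐ[F] Ω)) σ.injective _ _).mpr hn, rfl⟩
  val K E Ω _ _ _ _ _ _ _ _ _ _ _ w x y y' hx h h' := by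
    have : CharZero E := charZero_of_injective_algebraMap (algebraMap K E).injective
    obtain ⟨P, hP⟩ := exists_desc (K := E) (Ω := AlgebraicClosure E) (W := W) (P := x) hx
    obtain ⟨W₁, h1, h2, h3⟩ := h
    obtain ⟨W₂, h4, h5, h6⟩ := h'
    subst hP
    exact red_unique w (uc_down ⟨h1, h2⟩ h3) (uc_down ⟨h4, h5⟩ h6)

instance ucK {n : ℕ} (f : Fin n → F[X]) : Uc (Kum f) where
  gal K L Ω _ _ _ _ _ _ _ _ _ _ σ w x y h :=
    KM.kred_act (f := f) (w := w) (w' := w.gal σ) (σ := (σ.restrictScalars F : Ω ≃ₐ[F] Ω)) rfl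
      (fun a h h' => rfl) h
  val K E Ω _ _ _ _ _ _ _ _ _ _ _ w x y y' hx h h' := by
    have : CharZero E := charZero_of_injective_algebraMap (algebraMap K E).injective
    obtain ⟨ξ, rfl⟩ := exists_kdesc (f := f) (K := E) (Ω := AlgebraicClosure E) hx
    obtain ⟨z, hz⟩ := kred_ex w ξ
    obtain ⟨W₁, h1, h2, h3⟩ := h
    obtain ⟨W₂, h4, h5, h6⟩ := h'
    exact (KM.kred_uniq W₁ h3 (KM.kred_up ⟨h1, h2⟩ hz)).trans
      (KM.kred_uniq W₂ h6 (KM.kred_up ⟨h4, h5⟩ hz)).symm

end MX
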