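import Pool.Agent.Lib.MP_f80667_ag.Mx.Fl
import Pool.Agent.Lib.MP_f80667_ag.Mx.Kq
import Pool.Agent.Lib.MP_f80667_ag.Mx.Qpi
import Pool.Agent.Lib.MP_f80667_ag.Mx.QdB
import Pool.Agent.Lib.MP_f80667_ag.Mx.Uc
import Pool.Agent.Lib.MP_f80667_ag.Nf.Ee

/-! The local theorem for products of elliptic curves and Kummer varieties. -/

open ZC BE PE Polynomial IntermediateField CV KM NE

namespace MX

variable {F : Type} [Field F] {r k : ℕ} {n : Fin k → ℕ} {E : Fin r → WeierstrassCurve F}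
  {W : ∀ j, Fin (n j) → WeierstrassCurve F}

instance hfM (a : Fin r ⊕ Fin k) : Hf (Vm E W a) :=
  match a with
  | Sum.inl i => hfE (E i)
  | Sum.inr j => hfK fun i => (W j i).Ψ₂Sq

instance kpM [hE : ∀ i, (E i).IsElliptic] (a : Fin r ⊕ Fin k) : Kp (Vm E W a) :=
  match a with
  | Sum.inl i => kpE (E i)
  | Sum.inr j => kpK fun i => (W j i).Ψ₂Sq

instance ucM (a : Fin r ⊕ Fin k) : Uc (Vm E W a) :=
  match a with
  | Sum.inl i => ucE (E i)
  | Sum.inr j => ucK fun i => (W j i).Ψ₂Sq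

variable [NumberField F]

/-- The quotients. -/
noncomputable def qV (E : Fin r → WeierstrassCurve F) (W : ∀ j, Fin (n j) → WeierstrassCurve F)
    [hn : ∀ j, NeZero (n j)] [hW : ∀ j i, (W j i).IsElliptic] (a : Fin r ⊕ Fin k) :
    Qd (Zm E W a) (Vm E W a) :=
  match a with
  | Sum.inl i => Qd.triv (Ev (E i))
  | Sum.inr j => qK (W j)

omit [NumberField F] in
/-- The pull-back for the trivial quotient. -/
private theorem lc_triv (V : Vr F) {Ω : Type} [Field Ω] [CharZero Ω] [IsAlgClosed Ω] [Algebra F Ω]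
    (z : V.pt Ω →₀ ℤ) : (Qd.triv V).pull z = z := by
  have h : (Qd.triv V).pull (Ω := Ω) = AddMonoidHom.id _ := by
    refine Finsupp.addHom_ext fun v n => ?_
    have h1 : Finsupp.single v n = n • Finsupp.single v (1 : ℤ) := by
      rw [Finsupp.smul_single, smul_eq_mul, mul_one]
    rw [h1, map_zsmul, map_zsmul, Qd.pull_single, AddMonoidHom.id_apply]
    congr 1
    exact Fintype.sum_unique (ι := Unit) _
  rw [h, AddMonoidHom.id_apply]

/-- The number of the points above. -/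
private theorem lc_card [∀ j, NeZero (n j)] [∀ i, (E i).IsElliptic] [∀ j i, (W j i).IsElliptic] {m : ℕ} (hm : Odd m) :
    (Fintype.card (Qd.pi (qV E W)).J).Coprime m := by
  have h : Fintype.card (Qd.pi (qV E W)).J = ∏ a, Fintype.card (qV E W a).J := Fintype.card_pi
  rw [h]
  refine Nat.Coprime.prod_left fun a _ => ?_
  match a with
  | Sum.inl i =>
    have h1 : Fintype.card (qV E W (Sum.inl i)).J = 1 := Fintype.card_unit
    rw [h1]
    exact Nat.coprime_one_left m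
  | Sum.inr j =>
    have h1 : Fintype.card (qV E W (Sum.inr j)).J = 2 := Fintype.card_bool
    rw [h1]
    exact Nat.coprime_two_left.2 hm

/-- The identity. -/
private theorem lc_alg {A : Type} [AddCommGroup A] {u v : ℤ} {N m : ℕ}
    (h : u * N + v * m = 1) (z a b : A) :
    z - m • (u • a + v • z) = u • (N • b - m • a) - (u * N) • (b - z) := by
  have h9 : z = (u * N + v * m) • z := by rw [h, one_smul]
  rw [← natCast_zsmul, ← natCast_zsmul, ← natCast_zsmul]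
  conv_lhs => lhs; rw [h9]
  module

private theorem lc_aux [∀ j, NeZero (n j)] [∀ i, (E i).IsElliptic] [∀ j i, (W j i).IsElliptic]
    {K Ω : Type} [Field K] [CharZero K] [Field Ω] [Algebra K Ω] [Algebra F K] [Algebra F Ω]
    [IsScalarTower F K Ω] [IsAlgClosure K Ω] {m : ℕ} (hm : Odd m)
    (h : DvG (fun p => Ev (All E W p)) K Ω m) {z : (Vpi (Vm E W)).pt Ω →₀ ℤ}
    (hz : z ∈ (Vpi (Vm E W)).D0 K Ω)
    (ha : ∀ i : Fin r, (Finsupp.mapDomain ((pr (V := Vm E W) (Sum.inl i)).f Ω) z :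
      (Ev (E i)).pt Ω →₀ ℤ) ∈ (Ev (E i)).ratEq K Ω) :
    ∃ z' ∈ (Vpi (Vm E W)).D0 K Ω,
      (∀ i : Fin r, (Finsupp.mapDomain ((pr (V := Vm E W) (Sum.inl i)).f Ω) z' :
        (Ev (E i)).pt Ω →₀ ℤ) ∈ (Ev (E i)).ratEq K Ω) ∧
      z - m • z' ∈ (Vpi (Vm E W)).ratEq K Ω := by
  have : IsAlgClosed Ω := IsAlgClosure.isAlgClosed K
  have : CharZero Ω := charZero_of_injective_algebraMap (algebraMap K Ω).injective
  set q := Qd.pi (qV E W) with hq
  have hw : q.pull z ∈ (Vpi (Zm E W)).D0 K Ω := q.pull_mem hz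
  have h1 : ∀ i : Fin r, (Finsupp.mapDomain ((pr (V := Zm E W) (Sum.inl i)).f Ω) (q.pull z) :
      (Ev (E i)).pt Ω →₀ ℤ) ∈ (Ev (E i)).ratEq K Ω := by
    intro i
    have h2 := pull_pr (qV E W) (Sum.inl i) z
    have h3 : (qV E W (Sum.inl i)).pull (Finsupp.mapDomain
        (fun x : (Vpi (Vm E W)).pt Ω => x (Sum.inl i)) z) =
        Finsupp.mapDomain (fun x : (Vpi (Vm E W)).pt Ω => x (Sum.inl i)) z := lc_triv (Ev (E i)) _
    rw [h3] at h2
    have h4 : (Finsupp.mapDomain (fun x : (Vpi (Zm E W)).pt Ω => x (Sum.inl i)) (q.pull z) :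
      (Ev (E i)).pt Ω →₀ ℤ) ∈ (Ev (E i)).ratEq K Ω := by
      rw [hq]
      refine Eq.mpr (congrArg (fun t => t ∈ (Ev (E i)).ratEq K Ω) h2) ?_
      exact AddSubgroup.nsmul_mem _ (ha i) _
    exact h4
  have h2 : ∀ (j : Fin k) (i : Fin (n j)),
      (Finsupp.mapDomain ((pr (V := fun i => Ev (W j i)) i).f Ω)
      (Finsupp.mapDomain ((pr (V := Zm E W) (Sum.inr j)).f Ω) (q.pull z) :
        (Vpi fun i => Ev (W j i)).pt Ω →₀ ℤ) : (Ev (W j i)).pt Ω →₀ ℤ) ∈
      (Ev (W j i)).ratEq K Ω := by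
    intro j i
    have h3 := pull_pr (qV E W) (Sum.inr j) z
    have h4 : Finsupp.mapDomain (fun x : (Vpi (Zm E W)).pt Ω => x (Sum.inr j)) (q.pull z) =
        (∏ b ∈ Finset.univ.erase (Sum.inr j), Fintype.card (qV E W b).J) •
          (qK (W j)).pull (Finsupp.mapDomain ((pr (V := Vm E W) (Sum.inr j)).f Ω) z) := h3
    have h5 : (Finsupp.mapDomain ((pr (V := Vm E W) (Sum.inr j)).f Ω) z :
      (Kum fun i => (W j i).Ψ₂Sq).pt Ω →₀ ℤ) ∈ (Kum fun i => (W j i).Ψ₂Sq).D0 K Ω :=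
      (pr (V := Vm E W) (Sum.inr j)).D0 hz
    have h6 := pull_alb (W j) h5 i
    have h7 : (Finsupp.mapDomain ((pr (V := fun i => Ev (W j i)) i).f Ω)
        (Finsupp.mapDomain (fun x : (Vpi (Zm E W)).pt Ω => x (Sum.inr j)) (q.pull z) :
          (Vpi fun i => Ev (W j i)).pt Ω →₀ ℤ) : (Ev (W j i)).pt Ω →₀ ℤ) =
        (∏ b ∈ Finset.univ.erase (Sum.inr j), Fintype.card (qV E W b).J) •
        Finsupp.mapDomain ((pr (V := fun i => Ev (W j i)) i).f Ω)
          ((qK (W j)).pull (Finsupp.mapDomain ((pr (V := Vm E W) (Sum.inr j)).f Ω) z)) :=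
      (congrArg (Finsupp.mapDomain.addMonoidHom ((pr (V := fun i => Ev (W j i)) i).f Ω)) h4).trans
        (map_nsmul (Finsupp.mapDomain.addMonoidHom ((pr (V := fun i => Ev (W j i)) i).f Ω)) _ _)
    refine Eq.mpr (congrArg (fun t => t ∈ (Ev (W j i)).ratEq K Ω) h7) ?_
    exact AddSubgroup.nsmul_mem _ h6 _
  obtain ⟨w', hw', h3, h4⟩ := dv_fl h hw h1 h2
  set N := Fintype.card q.J with hN
  have h5 : Finsupp.mapDomain (q.π Ω) (q.pull z - m • w') ∈ (Vpi (Vm E W)).ratEq K Ω :=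
    q.push_ratEq h4
  have h6 : Finsupp.mapDomain (q.π Ω) (q.pull z - m • w') =
      N • Finsupp.mapDomain (q.ν Ω) z - m • Finsupp.mapDomain (q.π Ω) w' := by
    have h7 : Finsupp.mapDomain.addMonoidHom (q.π Ω) (q.pull z - m • w') =
        Finsupp.mapDomain.addMonoidHom (q.π Ω) (q.pull z) -
          m • Finsupp.mapDomain.addMonoidHom (q.π Ω) w' := by
      rw [map_sub, map_nsmul]
    refine h7.trans ?_
    congr 1
    exact q.pull_push z
  have h7 : Finsupp.mapDomain (q.ν Ω) z - z ∈ (Vpi (Vm E W)).ratEq K Ω := q.ν_eq K Ω z hz.1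
  have hc : IsCoprime (N : ℤ) (m : ℤ) := Nat.isCoprime_iff_coprime.2 (lc_card hm)
  obtain ⟨u, v, huv⟩ := hc
  have hw'' : Finsupp.mapDomain (q.π Ω) w' ∈ (Vpi (Vm E W)).D0 K Ω := q.push_mem hw'
  refine ⟨u • Finsupp.mapDomain (q.π Ω) w' + v • z,
    AddSubgroup.add_mem _ (AddSubgroup.zsmul_mem _ hw'' u) (AddSubgroup.zsmul_mem _ hz v),
    fun i => ?_, ?_⟩
  · have h8 : (Finsupp.mapDomain ((pr (V := Vm E W) (Sum.inl i)).f Ω)
        (u • Finsupp.mapDomain (q.π Ω) w' + v • z) : (Ev (E i)).pt Ω →₀ ℤ) =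
        u • (Finsupp.mapDomain ((pr (V := Zm E W) (Sum.inl i)).f Ω) w' : (Ev (E i)).pt Ω →₀ ℤ) +
        v • (Finsupp.mapDomain ((pr (V := Vm E W) (Sum.inl i)).f Ω) z :
          (Ev (E i)).pt Ω →₀ ℤ) := by
      have h9 : Finsupp.mapDomain.addMonoidHom ((pr (V := Vm E W) (Sum.inl i)).f Ω)
          (u • Finsupp.mapDomain (q.π Ω) w' + v • z) =
          u • Finsupp.mapDomain.addMonoidHom ((pr (V := Vm E W) (Sum.inl i)).f Ω)
            (Finsupp.mapDomain (q.π Ω) w') +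
          v • Finsupp.mapDomain.addMonoidHom ((pr (V := Vm E W) (Sum.inl i)).f Ω) z := by
        rw [map_add, map_zsmul, map_zsmul]
      refine h9.trans ?_
      congr 2
      change Finsupp.mapDomain ((pr (V := Vm E W) (Sum.inl i)).f Ω)
        (Finsupp.mapDomain (q.π Ω) w') = _
      rw [← Finsupp.mapDomain_comp]
      rfl
    refine Eq.mpr (congrArg (fun t => t ∈ (Ev (E i)).ratEq K Ω) h8) ?_
    exact AddSubgroup.add_mem _ (AddSubgroup.zsmul_mem _ (h3 i) u)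
      (AddSubgroup.zsmul_mem _ (ha i) v)
  · have h8 : z - m • (u • Finsupp.mapDomain (q.π Ω) w' + v • z) =
        u • (N • Finsupp.mapDomain (q.ν Ω) z - m • Finsupp.mapDomain (q.π Ω) w') -
          (u * N) • (Finsupp.mapDomain (q.ν Ω) z - z) := by
      exact lc_alg huv _ _ _
    rw [h8]
    rw [h6] at h5
    exact AddSubgroup.sub_mem _ (AddSubgroup.zsmul_mem _ h5 u) (AddSubgroup.zsmul_mem _ h7 _)

/-- **The local theorem.** Proof: `q = Qd.pi (qV E W)`, `w = q.pull z` (`pull_mem`). By `pull_pr` the push-forward of `w` to the factor `inl i` is a multiple of that of `z` (the pull-back for `Qd.triv` is the identity), and the push-forward to `inr j` is a multiple of the pull-back of a cycle of degree `0`: `pull_alb`.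
So `w - m w' ∈ ratEq` with `w'` of `dv_fl`; `Qd.push_ratEq`, `pull_push`: `N ν_* z - m π_* w' ∈ ratEq`, `ν_* z - z ∈ ratEq` (`q.ν_eq`), `N = 2 ^ k` is prime to `m`: `u N + v m = 1`, `z' = u π_* w' + v z`. The push-forward of `π_* w'` to `inl i` is that of `w'`. -/
theorem loc_mx [∀ j, NeZero (n j)] [∀ i, (E i).IsElliptic] [∀ j i, (W j i).IsElliptic]
    {K Ω : Type} [Field K] [CharZero K] [Field Ω] [Algebra K Ω] [Algebra F K] [Algebra F Ω]
    [IsScalarTower F K Ω] [IsAlgClosure K Ω] {m : ℕ} (hm : Odd m)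
    (h : DvG (fun p => Ev (All E W p)) K Ω m) {z : (Xm E W).pt Ω →₀ ℤ}
    (hz : z ∈ (Xm E W).D0 K Ω)
    (ha : ∀ i : Fin r, (Finsupp.mapDomain ((pr (V := Vm E W) (Sum.inl i)).f Ω) z :
      (Ev (E i)).pt Ω →₀ ℤ) ∈ (Ev (E i)).ratEq K Ω) :
    ∃ z' ∈ (Xm E W).D0 K Ω,
      (∀ i : Fin r, (Finsupp.mapDomain ((pr (V := Vm E W) (Sum.inl i)).f Ω) z' :
        (Ev (E i)).pt Ω →₀ ℤ) ∈ (Ev (E i)).ratEq K Ω) ∧
      z - m • z' ∈ (Xm E W).ratEq K Ω := by
  exact lc_aux hm h hz ha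

end MX
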