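import Pool.Agent.Lib.MP_f80667_ag.Nf.Df
import Pool.Agent.Lib.MP_f80667_ag.Cv.HdB
import Pool.Agent.Lib.MP_f80667_ag.Cv.Mo

/-!
Quotients of varieties by finite groups, up to a retraction of exceptional sets: the maps of points, the pull-back and the push-forward of cycles.

* `Qd Z V`: `π : Z → V` on points (compatible with the reduction up to the retraction `ν : V → V`), the points `pb v j`, `j : J`, above `v`.
* `Qd.pull`: the pull-back of cycles, `Qd.pull_push`: `π_* π^* = |J| ν_*`, `Qd.push_ratEq`: the push-forward of cycles rationally equivalent to `0`.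
-/

open ZC BE PE Polynomial IntermediateField CV NE

namespace MX

variable {F : Type} [Field F]

/-- `V` is the quotient of `Z` by a finite group, up to the retraction `ν` of exceptional sets. -/
structure Qd (Z V : Vr F) where
  /-- the map of points -/
  π : ∀ (L : Type) [Field L] [Algebra F L], Z.pt L → V.pt L
  /-- the retraction -/
  ν : ∀ (L : Type) [Field L] [Algebra F L], V.pt L → V.pt L
  π_nat : ∀ (L M : Type) [Field L] [Field M] [Algebra F L] [Algebra F M] (σ : L →ₐ[F] M)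
    (x : Z.pt L), V.map σ (π L x) = π M (Z.map σ x)
  ν_nat : ∀ (L M : Type) [Field L] [Field M] [Algebra F L] [Algebra F M] (σ : L →ₐ[F] M)
    (x : V.pt L), V.map σ (ν L x) = ν M (V.map σ x)
  red : ∀ (K L Ω : Type) [Field K] [Field L] [Field Ω] [Algebra K L] [Algebra K Ω] [Algebra F K]
    [Algebra F L] [Algebra F Ω] [IsScalarTower F K L] [IsScalarTower F K Ω] (w : Place K L Ω)
    (x : Z.pt L) (y : Z.pt Ω), Z.red w x y → ∃ v, V.red w (π L x) v ∧ ν Ω v = π Ω y
  ν_eq : ∀ (K Ω : Type) [Field K] [CharZero K] [Field Ω] [Algebra F K] [Algebra K Ω]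
    [Algebra F Ω] [IsScalarTower F K Ω] [IsAlgClosure K Ω] (z : V.pt Ω →₀ ℤ), z ∈ V.cyc K Ω →
    Finsupp.mapDomain (ν Ω) z - z ∈ V.ratEq K Ω
  /-- the index of the points above -/
  J : Type
  /-- `J` is finite -/
  fin : Fintype J
  /-- the points above -/
  pb : ∀ (Ω : Type) [Field Ω] [CharZero Ω] [IsAlgClosed Ω] [Algebra F Ω], V.pt Ω → J → Z.pt Ω
  π_pb : ∀ (Ω : Type) [Field Ω] [CharZero Ω] [IsAlgClosed Ω] [Algebra F Ω] (v : V.pt Ω) (j : J),
    π Ω (pb Ω v j) = ν Ω v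
  pb_act : ∀ (Ω : Type) [Field Ω] [CharZero Ω] [IsAlgClosed Ω] [Algebra F Ω] (σ : Ω ≃ₐ[F] Ω)
    (v : V.pt Ω), ∃ e : Equiv.Perm J, ∀ j, pb Ω (V.map (σ : Ω →ₐ[F] Ω) v) j =
      Z.map (σ : Ω →ₐ[F] Ω) (pb Ω v (e j))

attribute [instance] Qd.fin

namespace Qd

/-- The trivial quotient. -/
def triv (V : Vr F) : Qd V V where
  π _ _ _ x := x
  ν _ _ _ x := x
  π_nat _ _ _ _ _ _ _ _ := rfl
  ν_nat _ _ _ _ _ _ _ _ := rfl
  red _ _ _ _ _ _ _ _ _ _ _ _ _ _ _ y h := ⟨y, h, rfl⟩
  ν_eq K Ω _ _ _ _ _ _ _ _ z _ := by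
    have h : Finsupp.mapDomain (fun x : V.pt Ω => x) z - z = 0 := by
      rw [show (fun x : V.pt Ω => x) = id from rfl, Finsupp.mapDomain_id, sub_self]
    rw [h]
    exact AddSubgroup.zero_mem _
  J := Unit
  fin := inferInstance
  pb _ _ _ _ _ v _ := v
  π_pb _ _ _ _ _ _ _ := rfl
  pb_act _ _ _ _ _ _ _ := ⟨Equiv.refl _, fun _ => rfl⟩

variable {Z V : Vr F} (q : Qd Z V)

section pull

variable {Ω : Type} [Field Ω] [CharZero Ω] [IsAlgClosed Ω] [Algebra F Ω]

/-- The pull-back of cycles. -/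
noncomputable def pull : (V.pt Ω →₀ ℤ) →+ (Z.pt Ω →₀ ℤ) :=
  Finsupp.liftAddHom fun v => zmultiplesHom _ (∑ j : q.J, Finsupp.single (q.pb Ω v j) 1)

theorem pull_single (v : V.pt Ω) :
    q.pull (Finsupp.single v 1) = ∑ j : q.J, Finsupp.single (q.pb Ω v j) 1 := by
  rw [pull, Finsupp.liftAddHom_apply_single, zmultiplesHom_apply, one_zsmul]

/-- Proof: as `kpull_push` (`Km/Pl.lean`). -/
theorem pull_push (z : V.pt Ω →₀ ℤ) : Finsupp.mapDomain (q.π Ω) (q.pull z) =
    Fintype.card q.J • Finsupp.mapDomain (q.ν Ω) z := by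
  have h : (Finsupp.mapDomain.addMonoidHom (M := ℤ) (q.π Ω)).comp q.pull =
      Fintype.card q.J • Finsupp.mapDomain.addMonoidHom (M := ℤ) (q.ν Ω) := by
    ext x : 2
    change Finsupp.mapDomain.addMonoidHom (M := ℤ) (q.π Ω) (q.pull (Finsupp.single x 1)) =
      Fintype.card q.J • Finsupp.mapDomain (q.ν Ω) (Finsupp.single x 1)
    rw [pull_single, map_sum, Finsupp.mapDomain_single]
    have h1 : ∀ j ∈ Finset.univ, Finsupp.mapDomain.addMonoidHom (M := ℤ) (q.π Ω)
        (Finsupp.single (q.pb Ω x j) 1) = Finsupp.single (q.ν Ω x) 1 := fun j _ => by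
      change Finsupp.mapDomain (q.π Ω) (Finsupp.single (q.pb Ω x j) 1) = _
      rw [Finsupp.mapDomain_single, q.π_pb]
    rw [Finset.sum_congr rfl h1, Finset.sum_const, Finset.card_univ]
  exact DFunLike.congr_fun h z

/-- The degree of the pull-back. -/
private theorem qd_dg (z : V.pt Ω →₀ ℤ) :
    dg (q.pull z) = Fintype.card q.J * dg z := by
  have h : (dg : (Z.pt Ω →₀ ℤ) →+ ℤ).comp q.pull = Fintype.card q.J • dg := by
    ext x : 2
    change dg (q.pull (Finsupp.single x 1)) = Fintype.card q.J • dg (Finsupp.single x 1)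
    rw [pull_single, map_sum, sib_dg_single]
    rw [Finset.sum_congr rfl fun j _ => sib_dg_single (q.pb Ω x j) 1, Finset.sum_const,
      Finset.card_univ]
  have h1 := DFunLike.congr_fun h z
  refine Eq.trans h1 ?_
  change Fintype.card q.J • dg z = Fintype.card q.J * dg z
  rw [nsmul_eq_mul]

end pull

section act

variable {K Ω : Type} [Field K] [Field Ω] [CharZero Ω] [IsAlgClosed Ω] [Algebra K Ω]
  [Algebra F K] [Algebra F Ω] [IsScalarTower F K Ω]

/-- The pull-back is compatible with the automorphisms. -/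
private theorem qd_act (σ : Ω ≃ₐ[K] Ω) (z : V.pt Ω →₀ ℤ) :
    q.pull (Finsupp.mapDomain (V.act σ) z) = Finsupp.mapDomain (Z.act σ) (q.pull z) := by
  have h : (q.pull).comp (Finsupp.mapDomain.addMonoidHom (M := ℤ) (V.act σ)) =
      (Finsupp.mapDomain.addMonoidHom (M := ℤ) (Z.act σ)).comp q.pull := by
    ext x : 2
    change q.pull (Finsupp.mapDomain (V.act σ) (Finsupp.single x 1)) =
      Finsupp.mapDomain.addMonoidHom (M := ℤ) (Z.act σ) (q.pull (Finsupp.single x 1))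
    rw [Finsupp.mapDomain_single, pull_single, pull_single, map_sum]
    obtain ⟨e, he⟩ := q.pb_act Ω (σ.restrictScalars F) x
    have h1 : ∀ j ∈ Finset.univ, Finsupp.mapDomain.addMonoidHom (M := ℤ) (Z.act σ)
        (Finsupp.single (q.pb Ω x j) 1) = Finsupp.single (Z.act σ (q.pb Ω x j)) 1 := fun j _ => by
      change Finsupp.mapDomain (Z.act σ) (Finsupp.single (q.pb Ω x j) 1) = _
      rw [Finsupp.mapDomain_single]
    rw [Finset.sum_congr rfl h1]
    refine Eq.trans (Finset.sum_congr rfl fun j _ => ?_)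
      (Equiv.sum_comp e fun j => Finsupp.single (Z.act σ (q.pb Ω x j)) (1 : ℤ))
    exact congrArg (fun y => Finsupp.single y (1 : ℤ)) (he j)
  exact DFunLike.congr_fun h z

/-- Proof: as `kpull_mem` (`Km/Pl.lean`): the degree; `pb_act` for the automorphisms over `K`. -/
theorem pull_mem {z : V.pt Ω →₀ ℤ} (hz : z ∈ V.D0 K Ω) : q.pull z ∈ Z.D0 K Ω := by
  refine ⟨fun σ => ?_, ?_⟩
  · exact (q.qd_act σ z).symm.trans (congrArg _ (hz.1 σ))
  · have h1 : dg z = 0 := hz.2
    have h2 := q.qd_dg z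
    rw [h1, mul_zero] at h2
    exact h2

omit [CharZero Ω] [IsAlgClosed Ω] in
/-- Proof: as `kpi_mem` (`Km/Pl.lean`). -/
theorem push_mem {z : Z.pt Ω →₀ ℤ} (hz : z ∈ Z.D0 K Ω) :
    Finsupp.mapDomain (q.π Ω) z ∈ V.D0 K Ω := by
  refine ⟨fun σ => ?_, ?_⟩
  · have h0 : ∀ P : Z.pt Ω, V.act σ (q.π Ω P) = q.π Ω (Z.act σ P) := fun P =>
      q.π_nat Ω Ω (σ.restrictScalars F : Ω →ₐ[F] Ω) P
    have h1 : V.act σ ∘ q.π Ω = q.π Ω ∘ Z.act σ := funext h0
    have h2 : Finsupp.mapDomain (Z.act σ) z = z := hz.1 σ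
    rw [← Finsupp.mapDomain_comp, h1, Finsupp.mapDomain_comp, h2]
  · have h1 : dg z = 0 := hz.2
    have h2 := sib_dg_map (q.π Ω) z
    rw [h1] at h2
    exact h2

end act

end Qd

end MX
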