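import Pool.Agent.Lib.MP_f80667_ag.Mx.Qd

/-! Products of quotients: the retraction does not change classes of cycles. -/

open ZC BE PE Polynomial IntermediateField CV NE

namespace MX

variable {F : Type} [Field F] {ι : Type} [Fintype ι] {Z V : ι → Vr F} [∀ i, Hf (V i)]
  [∀ i, Kp (V i)]

section aux

variable {K Ω : Type} [Field K] [CharZero K] [Field Ω] [Algebra F K] [Algebra K Ω] [Algebra F Ω]
  [IsScalarTower F K Ω] [IsAlgClosure K Ω]

omit [Fintype ι] [∀ i, Hf (V i)] [∀ i, Kp (V i)] in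
/-- One coordinate of the new point. -/
private theorem mxq_coord {S₀ : Vr F} {M : IntermediateField K Ω} (D : Vr F) [Kp D]
    (f : S₀.pt Ω → D.pt Ω)
    (hf : (∃ φ : Mo S₀ D, ∀ x, f x = φ.f Ω x) ∨ ∃ y : D.pt Ω, Fp D M y ∧ ∀ x, f x = y)
    (E : Type) [Field E] [Algebra M E] [Algebra F E] [IsScalarTower F M E]
    (x : S₀.pt (AlgebraicClosure E)) (hx : S₀.Rat E x) :
    ∃ x' : D.pt (AlgebraicClosure E), D.Rat E x' ∧
      ∀ (W : Place M (AlgebraicClosure E) Ω) (p : S₀.pt Ω), S₀.red W x p → D.red W x' (f p) := by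
  rcases hf with ⟨φ, hφ⟩ | ⟨y, hy, hfy⟩
  · refine ⟨φ.f _ x, fun σ => ?_, fun W p hp => ?_⟩
    · change D.map _ (φ.f _ x) = φ.f _ x
      rw [φ.nat]
      exact congrArg (φ.f _) (hx σ)
    · rw [hφ]
      exact φ.red _ _ _ W x p hp
  · obtain ⟨x', hx', hr⟩ := Kp.cst K Ω M y hy E
    refine ⟨x', hx', fun W p _ => ?_⟩
    rw [hfy]
    exact hr W

omit [Fintype ι] [∀ i, Hf (V i)] in
private theorem mxq_mor {S₀ : Vr F} {M : IntermediateField K Ω}
    (f : S₀.pt Ω → (Vpi V).pt Ω)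
    (hf : ∀ i, (∃ φ : Mo S₀ (V i), ∀ x, f x i = φ.f Ω x) ∨
      ∃ y : (V i).pt Ω, Fp (V i) M y ∧ ∀ x, f x i = y)
    {z : S₀.pt Ω →₀ ℤ} (hz : z ∈ S₀.ratEq M Ω) :
    Finsupp.mapDomain f z ∈ (Vpi V).ratEq M Ω := by
  have h : S₀.ratEq M Ω ≤ ((Vpi V).ratEq M Ω).comap
      (Finsupp.mapDomain.addMonoidHom f) := by
    rw [Vr.ratEq, AddSubgroup.closure_le]
    rintro _ ⟨E, i1, i2, i3, i4, hE, g, x, hg, hx, S, m, y, hS, hv, rfl⟩
    change Finsupp.mapDomain f _ ∈ (Vpi V).ratEq M Ω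
    rw [Finsupp.mapDomain_finsetSum]
    choose x' hx' hr using fun i => mxq_coord (V i) (fun p => f p i) (hf i) E x hx
    refine AddSubgroup.subset_closure ⟨E, i1, i2, i3, i4, hE, g, x', hg, fun σ => ?_, S, m,
      fun w => f (y w), hS, fun w hw => ⟨(hv w hw).1, ?_⟩, ?_⟩
    · exact funext fun i => hx' i σ
    · obtain ⟨W, h1, h2, h3⟩ := (hv w hw).2
      exact ⟨W, h1, h2, fun i => hr i W (y w) h3⟩
    · refine Finset.sum_congr rfl fun w _ => ?_
      rw [Finsupp.mapDomain_single]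
  exact h hz

end aux

/-- A cycle on the factor `a` with constant other coordinates over `M`. Proof: as `snf_mor`, `up_ratEq` (`Nf/Snf.lean`), `Kp.cst`. -/
theorem ins_ratEq [DecidableEq ι] {K Ω : Type} [Field K] [CharZero K] [Field Ω] [Algebra F K]
    [Algebra K Ω] [Algebra F Ω] [IsScalarTower F K Ω] [IsAlgClosure K Ω]
    {M : IntermediateField K Ω} (a : ι) {y : (Vpi V).pt Ω} (hy : ∀ b, b ≠ a → Fp (V b) M (y b))
    {z : (V a).pt Ω →₀ ℤ} (hz : z ∈ (V a).ratEq M Ω) :
    Finsupp.mapDomain (fun x : (V a).pt Ω => (Function.update y a x : ∀ i, (V i).pt Ω)) z ∈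
      (Vpi V).ratEq M Ω := by
  refine mxq_mor (V := V) (S₀ := V a)
    (fun x : (V a).pt Ω => (Function.update y a x : ∀ i, (V i).pt Ω)) (fun j => ?_) hz
  rcases eq_or_ne j a with rfl | h
  · exact Or.inl ⟨⟨fun L _ _ x => x, fun _ _ _ _ _ _ _ _ => rfl,
      fun _ _ _ _ _ _ _ _ _ _ _ _ _ h => h⟩,
      fun x => Function.update_self (β := fun i => (V i).pt Ω) j x y⟩
  · exact Or.inr ⟨y j, hy j h, fun x => Function.update_of_ne (β := fun i => (V i).pt Ω) h x y⟩

/-- Every point of the product has a finite field of definition. Proof: `Kp.fp` for the coordinates, the compositum. -/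
theorem pi_fp {K Ω : Type} [Field K] [CharZero K] [Field Ω] [Algebra F K]
    [Algebra K Ω] [Algebra F Ω] [IsScalarTower F K Ω] [IsAlgClosure K Ω] (x : (Vpi V).pt Ω) :
    ∃ M : IntermediateField K Ω, FiniteDimensional K M ∧ Fp (Vpi V) M x := by
  choose M hM hx using fun i => Kp.fp K Ω (x i)
  have hfd : FiniteDimensional K (⨆ i, M i : IntermediateField K Ω) :=
    IntermediateField.finiteDimensional_iSup_of_finite
  refine ⟨⨆ i, M i, hfd, fun γ hγ => ?_⟩
  exact funext fun i => hx i γ (fix_le (le_iSup M i) hγ)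

private theorem mxq_md {A B : Type} (f : A → B) (u v : A) :
    Finsupp.mapDomain f (Finsupp.single u 1 - Finsupp.single v 1 : A →₀ ℤ) =
      Finsupp.single (f u) 1 - Finsupp.single (f v) 1 := by
  rw [← Finsupp.mapDomain.addMonoidHom_apply, map_sub, Finsupp.mapDomain.addMonoidHom_apply,
    Finsupp.mapDomain.addMonoidHom_apply, Finsupp.mapDomain_single, Finsupp.mapDomain_single]

/-- One point over `M`. -/
private theorem mxq_pt {K Ω : Type} [Field K] [CharZero K] [Field Ω] [Algebra F K] [Algebra K Ω]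
    [Algebra F Ω] [IsScalarTower F K Ω] [IsAlgClosure K Ω] (q : ∀ i, Qd (Z i) (V i))
    {M : IntermediateField K Ω} [FiniteDimensional K M] {x : (Vpi V).pt Ω}
    (hx : Fp (Vpi V) M x) (nu : (Vpi V).pt Ω → (Vpi V).pt Ω)
    (hnu : nu = fun (x : (Vpi V).pt Ω) => ((fun i => (q i).ν Ω (x i)) : (Vpi V).pt Ω)) :
    (Finsupp.single (nu x) 1 - Finsupp.single x 1 : (Vpi V).pt Ω →₀ ℤ) ∈ (Vpi V).ratEq M Ω := by
  classical
  have i1 : IsAlgClosure M Ω := ⟨IsAlgClosure.isAlgClosed K, inferInstance⟩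
  have i2 : IsScalarTower F M Ω := IsScalarTower.of_algebraMap_eq fun _ => rfl
  have hxi : ∀ i, Fp (V i) M (x i) := fun i γ hγ => congrFun (hx γ hγ) i
  have hni : ∀ i, Fp (V i) M ((q i).ν Ω (x i)) := fun i γ hγ => by
    refine ((q i).ν_nat Ω Ω _ (x i)).trans ?_
    exact congrArg ((q i).ν Ω) (hxi i γ hγ)
  obtain ⟨ys, hys⟩ : ∃ ys : Finset ι → (Vpi V).pt Ω,
      ys = fun s i => if i ∈ s then (q i).ν Ω (x i) else x i := ⟨_, rfl⟩
  have key : ∀ s : Finset ι,
      (Finsupp.single (ys s) 1 - Finsupp.single x 1 : (Vpi V).pt Ω →₀ ℤ) ∈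
        (Vpi V).ratEq M Ω := by
    intro s
    induction s using Finset.induction_on with
    | empty =>
      have e : ys ∅ = x := by
        rw [hys]
        exact funext fun i => if_neg (Finset.notMem_empty i)
      rw [e, sub_self]
      exact zero_mem _
    | insert a s ha ih =>
      have e1 : ys (insert a s) =
          (Function.update (ys s) a ((q a).ν Ω (x a)) : ∀ i, (V i).pt Ω) := by
        funext i
        rcases eq_or_ne i a with rfl | h
        · rw [Function.update_self, hys]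
          exact if_pos (Finset.mem_insert_self _ _)
        · rw [Function.update_of_ne h, hys]
          change (if i ∈ insert a s then (q i).ν Ω (x i) else x i) =
            if i ∈ s then (q i).ν Ω (x i) else x i
          by_cases hi : i ∈ s
          · rw [if_pos hi, if_pos (Finset.mem_insert_of_mem hi)]
          · rw [if_neg hi, if_neg]
            rw [Finset.mem_insert, not_or]
            exact ⟨h, hi⟩
      have e2 : ys s = (Function.update (ys s) a (x a) : ∀ i, (V i).pt Ω) := by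
        funext i
        rcases eq_or_ne i a with rfl | h
        · rw [Function.update_self, hys]
          exact if_neg ha
        · rw [Function.update_of_ne h]
      have hc : (Finsupp.single (x a) 1 : (V a).pt Ω →₀ ℤ) ∈ (V a).cyc M Ω := by
        intro σ
        rw [Finsupp.mapDomain_single]
        have hγ : σ.restrictScalars K ∈ M.fixingSubgroup := by
          rw [IntermediateField.mem_fixingSubgroup_iff]
          intro x hx
          exact σ.commutes ⟨x, hx⟩
        exact congrArg (fun p => (Finsupp.single p 1 : (V a).pt Ω →₀ ℤ))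
          (hxi a (σ.restrictScalars K) hγ)
      have h1 := (q a).ν_eq M Ω _ hc
      rw [Finsupp.mapDomain_single] at h1
      have h2 := ins_ratEq (V := V) (M := M) a (y := ys s) (fun b _ => ?_) h1
      · have h3 : Finsupp.mapDomain
            (fun x : (V a).pt Ω => (Function.update (ys s) a x : ∀ i, (V i).pt Ω))
            (Finsupp.single ((q a).ν Ω (x a)) 1 - Finsupp.single (x a) 1) =
            (Finsupp.single (ys (insert a s)) 1 - Finsupp.single (ys s) 1 :
              (Vpi V).pt Ω →₀ ℤ) :=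
          (mxq_md (B := (Vpi V).pt Ω) _ _ _).trans (congrArg₂
            (fun u v => (Finsupp.single u 1 - Finsupp.single v 1 : (Vpi V).pt Ω →₀ ℤ))
            e1.symm e2.symm)
        have h5 : (Finsupp.single (ys (insert a s)) 1 - Finsupp.single (ys s) 1 :
            (Vpi V).pt Ω →₀ ℤ) ∈ (Vpi V).ratEq M Ω :=
          Eq.subst (motive := fun z => z ∈ (Vpi V).ratEq M Ω) h3 h2
        have h4 := add_mem h5 ih
        rwa [sub_add_sub_cancel] at h4
      · rw [hys]
        change Fp (V b) M (if b ∈ s then (q b).ν Ω (x b) else x b)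
        split_ifs
        · exact hni b
        · exact hxi b
  have h := key Finset.univ
  have e : ys Finset.univ = nu x := by
    rw [hys, hnu]
    exact funext fun i => if_pos (Finset.mem_univ i)
  rwa [e] at h

/-- Proof: `fx_gen` (`Cv/HdB.lean`) for `Vpi V` with `pi_fp`: `z` is a sum of norms of points `v` over finite extensions `M`. `ν` commutes with the norm (`ν_nat`); `nm_ratEq` (`Cv/HdA.lean`): it remains `[ν v] - [v] ∈ ratEq M Ω` for `Fp (Vpi V) M v`. Change one coordinate after the other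
(induction over the finite set of indices): `ins_ratEq` with `(q a).ν_eq M Ω` for the cycle `[v a]`, which is a cycle over `M`. -/
theorem pi_ν_eq (q : ∀ i, Qd (Z i) (V i)) {K Ω : Type} [Field K] [CharZero K] [Field Ω]
    [Algebra F K] [Algebra K Ω] [Algebra F Ω] [IsScalarTower F K Ω] [IsAlgClosure K Ω]
    {z : (Vpi V).pt Ω →₀ ℤ} (hz : z ∈ (Vpi V).cyc K Ω) :
    (Finsupp.mapDomain (fun (x : (Vpi V).pt Ω) => ((fun i => (q i).ν Ω (x i)) : (Vpi V).pt Ω)) z :
      (Vpi V).pt Ω →₀ ℤ) - z ∈ (Vpi V).ratEq K Ω := by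
  classical
  obtain ⟨nu, hnu⟩ : ∃ nu : (Vpi V).pt Ω → (Vpi V).pt Ω,
      nu = fun (x : (Vpi V).pt Ω) => ((fun i => (q i).ν Ω (x i)) : (Vpi V).pt Ω) := ⟨_, rfl⟩
  have hact : ∀ (γ : Ω ≃ₐ[K] Ω) (x : (Vpi V).pt Ω),
      (Vpi V).act γ (nu x) = nu ((Vpi V).act γ x) := by
    intro γ x
    rw [hnu]
    exact funext fun i => (q i).ν_nat Ω Ω _ (x i)
  rw [← hnu]
  let φ : ((Vpi V).pt Ω →₀ ℤ) →+ ((Vpi V).pt Ω →₀ ℤ) :=
    Finsupp.mapDomain.addMonoidHom nu - AddMonoidHom.id _
  have hz0 : Fx (⊥ : IntermediateField K Ω) z := fun γ _ => hz γ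
  have h1 := fx_gen (V := Vpi V) (fun x => pi_fp (K := K) (Ω := Ω) x) hz0
  have h2 : AddSubgroup.closure {z | ∃ (M' : IntermediateField K Ω) (x : (Vpi V).pt Ω),
      (⊥ : IntermediateField K Ω) ≤ M' ∧ FiniteDimensional K M' ∧ Fp (Vpi V) M' x ∧
      z = Nm (⊥ : IntermediateField K Ω) M' (Finsupp.single x 1)} ≤
      ((Vpi V).ratEq K Ω).comap φ := by
    rw [AddSubgroup.closure_le]
    rintro _ ⟨M, x, hle, hM, hx, rfl⟩
    have hnx : Fp (Vpi V) M (nu x) := fun γ hγ => by
      rw [hact, hx γ hγ]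
    have h4 : (Finsupp.single (nu x) 1 - Finsupp.single x 1 : (Vpi V).pt Ω →₀ ℤ) ∈
        (Vpi V).ratEq M Ω := mxq_pt q hx nu hnu
    have h6 : Fx M (Finsupp.single (nu x) 1 - Finsupp.single x 1 : (Vpi V).pt Ω →₀ ℤ) :=
      (fx_single hnx 1).sub (fx_single hx 1)
    have h7 := nm_ratEq h4 h6
    obtain ⟨s, -, -, -, h₃⟩ := nm_rep hle
    change Finsupp.mapDomain nu (Nm (⊥ : IntermediateField K Ω) M
      (Finsupp.single x 1 : (Vpi V).pt Ω →₀ ℤ)) -
      Nm (⊥ : IntermediateField K Ω) M (Finsupp.single x 1) ∈ (Vpi V).ratEq K Ω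
    rw [h₃] at h7 ⊢
    have h8 : Finsupp.mapDomain nu
        (∑ γ ∈ s, γ • (Finsupp.single x 1 : (Vpi V).pt Ω →₀ ℤ)) =
        ∑ γ ∈ s, γ • (Finsupp.single (nu x) 1 : (Vpi V).pt Ω →₀ ℤ) := by
      rw [← Finsupp.mapDomain.addMonoidHom_apply, map_sum]
      refine Finset.sum_congr rfl fun γ _ => ?_
      rw [Finsupp.mapDomain.addMonoidHom_apply, CV.smul_single, Finsupp.mapDomain_single,
        CV.smul_single]
      exact congrArg (fun p => (Finsupp.single p 1 : (Vpi V).pt Ω →₀ ℤ)) (hact γ x).symm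
    have h9 : ∑ γ ∈ s, (γ • (Finsupp.single (nu x) 1 : (Vpi V).pt Ω →₀ ℤ) -
        γ • (Finsupp.single x 1 : (Vpi V).pt Ω →₀ ℤ)) =
        ∑ γ ∈ s, γ • (Finsupp.single (nu x) 1 - Finsupp.single x 1 : (Vpi V).pt Ω →₀ ℤ) :=
      Finset.sum_congr rfl fun γ _ => (smul_sub _ _ _).symm
    rw [h8, ← Finset.sum_sub_distrib, h9]
    exact h7
  exact h2 h1

end MX
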